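import Mathlib

set_option autoImplicit false

open MeasureTheory Set

namespace Pool.Agent.H.MP_2725b4_gt

/-- partial derivatives of functions of `(t, x, y)` -/
noncomputable def Dt (F : ℝ × ℝ × ℝ → ℝ) (p : ℝ × ℝ × ℝ) : ℝ := fderiv ℝ F p (1, 0, 0)
noncomputable def Dx (F : ℝ × ℝ × ℝ → ℝ) (p : ℝ × ℝ × ℝ) : ℝ := fderiv ℝ F p (0, 1, 0)
noncomputable def Dy (F : ℝ × ℝ × ℝ → ℝ) (p : ℝ × ℝ × ℝ) : ℝ := fderiv ℝ F p (0, 0, 1)

section D

variable {F : ℝ × ℝ × ℝ → ℝ} (hF : ContDiff ℝ 1 F)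
include hF

lemma continuous_Dt : Continuous (Dt F) := by
  unfold Dt
  exact (hF.continuous_fderiv (by simp)).clm_apply continuous_const

lemma continuous_Dx : Continuous (Dx F) := by
  unfold Dx
  exact (hF.continuous_fderiv (by simp)).clm_apply continuous_const

lemma continuous_Dy : Continuous (Dy F) := by
  unfold Dy
  exact (hF.continuous_fderiv (by simp)).clm_apply continuous_const

lemma hasDerivAt_Dt (t x y : ℝ) : HasDerivAt (fun s => F (s, x, y)) (Dt F (t, x, y)) t := by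
  have h1 : HasFDerivAt F (fderiv ℝ F (t, x, y)) (t, x, y) :=
    (hF.differentiable (by simp) _).hasFDerivAt
  have h2 : HasDerivAt (fun s : ℝ => (s, x, y)) (1, 0, 0) t :=
    (hasDerivAt_id t).prodMk ((hasDerivAt_const t x).prodMk (hasDerivAt_const t y))
  exact h1.comp_hasDerivAt t h2

lemma hasDerivAt_Dx (t x y : ℝ) : HasDerivAt (fun s => F (t, s, y)) (Dx F (t, x, y)) x := by
  have h1 : HasFDerivAt F (fderiv ℝ F (t, x, y)) (t, x, y) :=
    (hF.differentiable (by simp) _).hasFDerivAt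
  have h2 : HasDerivAt (fun s : ℝ => (t, s, y)) (0, 1, 0) x :=
    (hasDerivAt_const x t).prodMk ((hasDerivAt_id x).prodMk (hasDerivAt_const x y))
  exact h1.comp_hasDerivAt x h2

lemma hasDerivAt_Dy (t x y : ℝ) : HasDerivAt (fun s => F (t, x, s)) (Dy F (t, x, y)) y := by
  have h1 : HasFDerivAt F (fderiv ℝ F (t, x, y)) (t, x, y) :=
    (hF.differentiable (by simp) _).hasFDerivAt
  have h2 : HasDerivAt (fun s : ℝ => (t, x, s)) (0, 0, 1) y :=
    (hasDerivAt_const y t).prodMk ((hasDerivAt_const y x).prodMk (hasDerivAt_id y))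
  exact h1.comp_hasDerivAt y h2

end D

/-- the space cell -/
def cell (a b : ℝ) : Set (ℝ × ℝ) := Ioc 0 a ×ˢ Ioc 0 b

/-- the space-time box -/
def bx (T a b : ℝ) : Set (ℝ × ℝ × ℝ) := Ioc 0 T ×ˢ cell a b

lemma measurableSet_cell (a b : ℝ) : MeasurableSet (cell a b) :=
  measurableSet_Ioc.prod measurableSet_Ioc

lemma measurableSet_bx (T a b : ℝ) : MeasurableSet (bx T a b) :=
  measurableSet_Ioc.prod (measurableSet_cell a b)

lemma integrableOn_cell {f : ℝ × ℝ → ℝ} (hf : Continuous f) (a b : ℝ) :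
    IntegrableOn f (cell a b) := by
  have hc : IsCompact (Icc (0 : ℝ) a ×ˢ Icc (0 : ℝ) b) := isCompact_Icc.prod isCompact_Icc
  exact (hf.continuousOn.integrableOn_compact hc).mono_set
    (Set.prod_mono Ioc_subset_Icc_self Ioc_subset_Icc_self)

lemma integrableOn_bx {f : ℝ × ℝ × ℝ → ℝ} (hf : Continuous f) (T a b : ℝ) :
    IntegrableOn f (bx T a b) := by
  have hc : IsCompact (Icc (0 : ℝ) T ×ˢ (Icc (0 : ℝ) a ×ˢ Icc (0 : ℝ) b)) :=
    isCompact_Icc.prod (isCompact_Icc.prod isCompact_Icc)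
  exact (hf.continuousOn.integrableOn_compact hc).mono_set
    (Set.prod_mono Ioc_subset_Icc_self (Set.prod_mono Ioc_subset_Icc_self Ioc_subset_Icc_self))

lemma integral_bx_eq {f : ℝ × ℝ × ℝ → ℝ} (hf : Continuous f) (T a b : ℝ) :
    ∫ p in bx T a b, f p = ∫ t in Ioc 0 T, ∫ q in cell a b, f (t, q) :=
  setIntegral_prod _ (integrableOn_bx hf T a b)

lemma integral_cell_eq {f : ℝ × ℝ → ℝ} (hf : Continuous f) (a b : ℝ) :
    ∫ q in cell a b, f q = ∫ x in Ioc 0 a, ∫ y in Ioc 0 b, f (x, y) :=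
  setIntegral_prod _ (integrableOn_cell hf a b)

lemma integral_cell_eq' {f : ℝ × ℝ → ℝ} (hf : Continuous f) (a b : ℝ) :
    ∫ q in cell a b, f q = ∫ y in Ioc 0 b, ∫ x in Ioc 0 a, f (x, y) := by
  rw [integral_cell_eq hf]
  apply integral_integral_swap
  have h := integrableOn_cell hf a b
  unfold IntegrableOn cell at h
  rwa [Measure.volume_eq_prod, ← Measure.prod_restrict] at h

lemma integral_bx_eq_zero {f : ℝ × ℝ × ℝ → ℝ} (hf : Continuous f) {T a b : ℝ}
    (h : ∀ t, ∫ q in cell a b, f (t, q) = 0) : ∫ p in bx T a b, f p = 0 := by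
  rw [integral_bx_eq hf]
  simp [h]

lemma integral_cell_dx {F F' : ℝ × ℝ → ℝ} (hF' : Continuous F') {a b : ℝ} (ha : 0 ≤ a)
    (hd : ∀ x y, HasDerivAt (fun s => F (s, y)) (F' (x, y)) x)
    (hp : ∀ y, F (a, y) = F (0, y)) : ∫ q in cell a b, F' q = 0 := by
  rw [integral_cell_eq' hF']
  have : ∀ y, ∫ x in Ioc 0 a, F' (x, y) = 0 := by
    intro y
    rw [← intervalIntegral.integral_of_le ha,
      intervalIntegral.integral_eq_sub_of_hasDerivAt (f := fun s => F (s, y)) (fun x _ => hd x y)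
      ((hF'.comp (Continuous.prodMk_left y)).intervalIntegrable _ _), hp y, sub_self]
  simp [this]

lemma integral_cell_dy {F F' : ℝ × ℝ → ℝ} (hF' : Continuous F') {a b : ℝ} (hb : 0 ≤ b)
    (hd : ∀ x y, HasDerivAt (fun s => F (x, s)) (F' (x, y)) y)
    (hp : ∀ x, F (x, b) = F (x, 0)) : ∫ q in cell a b, F' q = 0 := by
  rw [integral_cell_eq hF']
  have : ∀ x, ∫ y in Ioc 0 b, F' (x, y) = 0 := by
    intro x
    rw [← intervalIntegral.integral_of_le hb,
      intervalIntegral.integral_eq_sub_of_hasDerivAt (f := fun s => F (x, s)) (fun y _ => hd x y)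
      ((hF'.comp (Continuous.prodMk_right x)).intervalIntegrable _ _), hp x, sub_self]
  simp [this]

lemma integral_bx_dx {F F' : ℝ × ℝ × ℝ → ℝ} (hF' : Continuous F') {T a b : ℝ} (ha : 0 ≤ a)
    (hd : ∀ t x y, HasDerivAt (fun s => F (t, s, y)) (F' (t, x, y)) x)
    (hp : ∀ t y, F (t, a, y) = F (t, 0, y)) : ∫ p in bx T a b, F' p = 0 := by
  apply integral_bx_eq_zero hF'
  intro t
  exact integral_cell_dx (F := fun q => F (t, q)) (hF'.comp (Continuous.prodMk_right t)) ha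
    (fun x y => hd t x y) (hp t)

lemma integral_bx_dy {F F' : ℝ × ℝ × ℝ → ℝ} (hF' : Continuous F') {T a b : ℝ} (hb : 0 ≤ b)
    (hd : ∀ t x y, HasDerivAt (fun s => F (t, x, s)) (F' (t, x, y)) y)
    (hp : ∀ t x, F (t, x, b) = F (t, x, 0)) : ∫ p in bx T a b, F' p = 0 := by
  apply integral_bx_eq_zero hF'
  intro t
  exact integral_cell_dy (F := fun q => F (t, q)) (hF'.comp (Continuous.prodMk_right t)) hb
    (fun x y => hd t x y) (hp t)

lemma integral_bx_dt {F F' : ℝ × ℝ × ℝ → ℝ} (hF' : Continuous F') {T a b : ℝ} (hT : 0 ≤ T)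
    (hd : ∀ t x y, HasDerivAt (fun s => F (s, x, y)) (F' (t, x, y)) t)
    (hp : ∀ x y, F (T, x, y) = F (0, x, y)) : ∫ p in bx T a b, F' p = 0 := by
  rw [integral_bx_eq hF']
  have hsw : ∫ t in Ioc 0 T, ∫ q in cell a b, F' (t, q)
      = ∫ q in cell a b, ∫ t in Ioc 0 T, F' (t, q) := by
    apply integral_integral_swap
    have h := integrableOn_bx hF' T a b
    unfold IntegrableOn bx at h
    rwa [Measure.volume_eq_prod, ← Measure.prod_restrict] at h
  rw [hsw]
  have : ∀ q : ℝ × ℝ, ∫ t in Ioc 0 T, F' (t, q) = 0 := by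
    intro q
    rw [← intervalIntegral.integral_of_le hT,
      intervalIntegral.integral_eq_sub_of_hasDerivAt (f := fun s => F (s, q))
      (fun t _ => hd t q.1 q.2)
      ((hF'.comp (Continuous.prodMk_left q)).intervalIntegrable _ _), sub_eq_zero]
    exact hp q.1 q.2
  simp [this]

/-- A continuous nonnegative function with zero integral over the box vanishes on the box. -/
lemma eq_zero_of_integral_bx {f : ℝ × ℝ × ℝ → ℝ} (hf : Continuous f) {T a b : ℝ}
    (h0 : ∀ p ∈ bx T a b, 0 ≤ f p) (hi : ∫ p in bx T a b, f p = 0) :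
    ∀ t x y, 0 ≤ t → t ≤ T → 0 ≤ x → x ≤ a → 0 ≤ y → y ≤ b → 0 < T → 0 < a → 0 < b →
      f (t, x, y) = 0 := by
  intro t x y ht0 htT hx0 hxa hy0 hyb hT ha hb
  have h1 : f =ᵐ[volume.restrict (bx T a b)] 0 := by
    rw [setIntegral_eq_zero_iff_of_nonneg_ae] at hi
    · exact hi
    · exact (ae_restrict_iff' (measurableSet_bx T a b)).mpr (Filter.Eventually.of_forall h0)
    · exact integrableOn_bx hf T a b
  set O : Set (ℝ × ℝ × ℝ) := Ioo 0 T ×ˢ (Ioo 0 a ×ˢ Ioo 0 b) with hO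
  have hOo : IsOpen O := isOpen_Ioo.prod (isOpen_Ioo.prod isOpen_Ioo)
  have hsub : O ⊆ bx T a b :=
    Set.prod_mono Ioo_subset_Ioc_self (Set.prod_mono Ioo_subset_Ioc_self Ioo_subset_Ioc_self)
  have h2 : f =ᵐ[volume.restrict O] 0 := ae_restrict_of_ae_restrict_of_subset hsub h1
  have h3 : EqOn f 0 O := Measure.eqOn_open_of_ae_eq h2 hOo hf.continuousOn continuousOn_const
  have h4 : EqOn f 0 (closure O) :=
    h3.closure hf continuous_const
  have h5 : (t, x, y) ∈ closure O := by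
    rw [hO, closure_prod_eq, closure_prod_eq, closure_Ioo hT.ne, closure_Ioo ha.ne,
      closure_Ioo hb.ne]
    exact ⟨⟨ht0, htT⟩, ⟨hx0, hxa⟩, ⟨hy0, hyb⟩⟩
  exact h4 h5

end Pool.Agent.H.MP_2725b4_gt
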