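import Pool.Agent.H.MP_2725b4_gt.Energy

set_option autoImplicit false

open MeasureTheory Set
open scoped ContDiff

namespace Pool.Agent.H.MP_2725b4_gt

/-- A component of a time dependent vector field as a function of `(t, x, y)`. -/
noncomputable def fl (z : ℝ → R2 → R2) (i : Fin 2) : ℝ × ℝ × ℝ → ℝ :=
  fun p => z p.1 ![p.2.1, p.2.2] i

lemma contDiff_vec : ContDiff ℝ 1 (fun p : ℝ × ℝ × ℝ => (![p.2.1, p.2.2] : R2)) := by
  rw [contDiff_pi]
  intro i
  fin_cases i
  · show ContDiff ℝ 1 (fun p : ℝ × ℝ × ℝ => p.2.1)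
    fun_prop
  · show ContDiff ℝ 1 (fun p : ℝ × ℝ × ℝ => p.2.2)
    fun_prop

lemma contDiff_fl {z : ℝ → R2 → R2} (hz : ContDiff ℝ 1 (fun q : ℝ × R2 => z q.1 q.2))
    (i : Fin 2) : ContDiff ℝ 1 (fl z i) := by
  have h1 : ContDiff ℝ 1 (fun q : ℝ × R2 => z q.1 q.2 i) := contDiff_pi.mp hz i
  exact h1.comp (_root_.contDiff_fst.prodMk contDiff_vec)

lemma hasDerivAt_vec0 (x y : ℝ) : HasDerivAt (fun s : ℝ => (![s, y] : R2)) (Pi.single 0 1) x := by
  rw [hasDerivAt_pi]
  intro i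
  fin_cases i
  · show HasDerivAt (fun s : ℝ => s) ((Pi.single 0 1 : R2) 0) x
    simpa using hasDerivAt_id' x
  · show HasDerivAt (fun _ : ℝ => y) ((Pi.single 0 1 : R2) 1) x
    simpa using hasDerivAt_const x y

lemma hasDerivAt_vec1 (x y : ℝ) : HasDerivAt (fun s : ℝ => (![x, s] : R2)) (Pi.single 1 1) y := by
  rw [hasDerivAt_pi]
  intro i
  fin_cases i
  · show HasDerivAt (fun _ : ℝ => x) ((Pi.single 1 1 : R2) 0) y
    simpa using hasDerivAt_const y x
  · show HasDerivAt (fun s : ℝ => s) ((Pi.single 1 1 : R2) 1) y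
    simpa using hasDerivAt_id' y

lemma hasDerivAt_pd0 {f : R2 → ℝ} (hf : Differentiable ℝ f) (x y : ℝ) :
    HasDerivAt (fun s => f ![s, y]) (pd 0 f ![x, y]) x :=
  (hf ![x, y]).hasFDerivAt.comp_hasDerivAt x (hasDerivAt_vec0 x y)

lemma hasDerivAt_pd1 {f : R2 → ℝ} (hf : Differentiable ℝ f) (x y : ℝ) :
    HasDerivAt (fun s => f ![x, s]) (pd 1 f ![x, y]) y :=
  (hf ![x, y]).hasFDerivAt.comp_hasDerivAt y (hasDerivAt_vec1 x y)

section conv

variable {z : ℝ → R2 → R2} (hz : ContDiff ℝ 1 (fun q : ℝ × R2 => z q.1 q.2))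
include hz

lemma pd0_fl (t x y : ℝ) (i : Fin 2) : pd 0 (fun r => z t r i) ![x, y] = Dx (fl z i) (t, x, y) := by
  have h1 := hasDerivAt_pd0 (differentiable_pi.mp (diff_space hz t) i) x y
  have h2 := hasDerivAt_Dx (contDiff_fl hz i) t x y
  exact h1.unique h2

lemma pd1_fl (t x y : ℝ) (i : Fin 2) : pd 1 (fun r => z t r i) ![x, y] = Dy (fl z i) (t, x, y) := by
  have h1 := hasDerivAt_pd1 (differentiable_pi.mp (diff_space hz t) i) x y
  have h2 := hasDerivAt_Dy (contDiff_fl hz i) t x y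
  exact h1.unique h2

lemma deriv_fl (t x y : ℝ) (i : Fin 2) :
    deriv (fun s => z s ![x, y] i) t = Dt (fl z i) (t, x, y) :=
  (hasDerivAt_Dt (contDiff_fl hz i) t x y).deriv

end conv

lemma per3_fl {z : ℝ → R2 → R2} (h : ∀ t, Per (1 / 16) (2 * Real.pi) (z t)) (i : Fin 2) :
    Per3 (fl z i) := by
  intro t x y
  have := h t x y
  unfold fl
  simp only [this.1, this.2, and_self]

lemma div_fl {z : ℝ → R2 → R2} (hz : ContDiff ℝ 1 (fun q : ℝ × R2 => z q.1 q.2))
    (h : ∀ t, DivFree ME (z t)) (p : ℝ × ℝ × ℝ) : Dx (fl z 0) p + Dy (fl z 1) p = 0 := by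
  obtain ⟨t, x, y⟩ := p
  have h1 := h t ![x, y]
  have e : ∀ i, (fun r => density ME r * z t r i) = fun r => z t r i := by
    intro i
    funext r
    rw [ME_density, one_mul]
  simp only [Fin.sum_univ_two, e] at h1
  rw [pd0_fl hz, pd1_fl hz] at h1
  exact h1

lemma flow_fl {z ξ : ℝ → R2 → R2} (hξ : ContDiff ℝ 1 (fun q : ℝ × R2 => ξ q.1 q.2))
    (i : Fin 2) (h : ∀ t p, HasDerivAt (fun s => ξ s (ηE s p) i)
    (z t (ηE t p) i + ∑ j, pd j (fun r => uE t r i) (ηE t p) * ξ t (ηE t p) j) t)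
    (t x y : ℝ) :
    Dt (fl ξ i) (t, x, y) + Uf y * Dx (fl ξ i) (t, x, y)
      = z t ![x, y] i + ∑ j, pd j (fun r => uE t r i) ![x, y] * ξ t ![x, y] j := by
  have hp : ηE t ![x - t * Uf y, y] = ![x, y] := by
    funext j
    fin_cases j
    · show x - t * Uf y + t * Uf y = x
      ring
    · rfl
  have h1 := h t ![x - t * Uf y, y]
  rw [hp] at h1
  have h2 : HasFDerivAt (fl ξ i) (fderiv ℝ (fl ξ i) (t, x, y)) (t, x, y) :=
    ((contDiff_fl hξ i).differentiable (by simp) _).hasFDerivAt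
  have h3 : HasDerivAt (fun s : ℝ => ((s, x - t * Uf y + s * Uf y, y) : ℝ × ℝ × ℝ))
      (1, Uf y, 0) t := by
    have h4 : HasDerivAt (fun s : ℝ => x - t * Uf y + s * Uf y) (Uf y) t := by
      simpa using ((hasDerivAt_id t).mul_const (Uf y)).const_add (x - t * Uf y)
    exact (hasDerivAt_id t).prodMk (h4.prodMk (hasDerivAt_const t y))
  have h5 : ((t, x - t * Uf y + t * Uf y, y) : ℝ × ℝ × ℝ) = (t, x, y) := by
    simp
  have h6 : HasDerivAt (fun s => fl ξ i (s, x - t * Uf y + s * Uf y, y))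
      (fderiv ℝ (fl ξ i) (t, x, y) (1, Uf y, 0)) t := by
    rw [← h5] at h2
    have := h2.comp_hasDerivAt t h3
    rw [h5] at this
    exact this
  have h7 : HasDerivAt (fun s => ξ s (ηE s ![x - t * Uf y, y]) i)
      (fderiv ℝ (fl ξ i) (t, x, y) (1, Uf y, 0)) t := h6
  have h8 := h1.unique h7
  have h9 : fderiv ℝ (fl ξ i) (t, x, y) (1, Uf y, 0)
      = Dt (fl ξ i) (t, x, y) + Uf y * Dx (fl ξ i) (t, x, y) := by
    unfold Dt Dx
    have : ((1, Uf y, 0) : ℝ × ℝ × ℝ) = (1, 0, 0) + Uf y • (0, 1, 0) := by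
      simp
    rw [this, map_add, map_smul, smul_eq_mul]
  rw [← h9, ← h8]

theorem flat_of_jacobi {z ξ : ℝ → R2 → R2} (h : IsJacobi ME uE ηE z ξ) :
    Flat (fl z 0) (fl z 1) (fl ξ 0) (fl ξ 1) where
  c_zx := contDiff_fl h.smooth_z 0
  c_zy := contDiff_fl h.smooth_z 1
  c_ξx := contDiff_fl h.smooth_ξ 0
  c_ξy := contDiff_fl h.smooth_ξ 1
  p_zx := per3_fl h.per_z 0
  p_zy := per3_fl h.per_z 1
  p_ξx := per3_fl h.per_ξ 0
  p_ξy := per3_fl h.per_ξ 1
  div_z := div_fl h.smooth_z h.div_z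
  div_ξ := div_fl h.smooth_ξ h.div_ξ
  start_x := by
    intro x y
    show ξ 0 ![x, y] 0 = 0
    rw [h.start]; rfl
  start_y := by
    intro x y
    show ξ 0 ![x, y] 1 = 0
    rw [h.start]; rfl
  flow_x := by
    rintro ⟨t, x, y⟩
    have := flow_fl h.smooth_ξ 0 (fun t p => h.lin_flow t p 0) t x y
    rw [Fin.sum_univ_two, pd_uE_00, pd_uE_10] at this
    simp only [zero_mul, zero_add] at this
    exact this
  flow_y := by
    rintro ⟨t, x, y⟩
    have := flow_fl h.smooth_ξ 1 (fun t p => h.lin_flow t p 1) t x y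
    rw [Fin.sum_univ_two, pd_uE_1, pd_uE_1] at this
    simp only [zero_mul, add_zero] at this
    exact this
  euler := by
    obtain ⟨π, h1, h2, h3⟩ := h.lin_euler
    have dπ : ∀ t, Differentiable ℝ (π t) := fun t => (h1 t).differentiable (by simp)
    refine ⟨fun t q => π t ![q.1, q.2], fun t => ?_, fun t x y => ?_, fun t x y => ?_,
      fun t x y => ?_⟩
    · have : Continuous (fun q : ℝ × ℝ => (![q.1, q.2] : R2)) := by
        apply continuous_pi
        intro i
        fin_cases i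
        · exact continuous_fst
        · exact continuous_snd
      exact (h1 t).continuous.comp this
    · exact h2 t x y
    · have e := h3 t ![x, y] 0
      have d := hasDerivAt_pd0 (dπ t) x y
      refine d.congr_deriv ?_
      rw [Fin.sum_univ_two, ME_00, ME_01, cov_u_0, cov_z_0, pd0_fl h.smooth_z,
        deriv_fl h.smooth_z] at e
      have e2 : pd 0 (π t) ![x, y] = -(-(pd 0 (π t) ![x, y])) := by ring
      rw [e2, ← e]
      show _ = -(Ef y * (Dt (fl z 0) (t, x, y) + Uf y * Dx (fl z 0) (t, x, y))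
        + Real.sin y / 4 * z t ![x, y] 1)
      have g1 : Ef y * dUf y + Real.sin y * Ef y ^ 2 * Uf y = Real.sin y / 4 := by
        unfold Ef dUf Uf
        have := qf_ne y
        field_simp
        ring
      have g2 : Real.sin y / qf y ^ 2 = Real.sin y * Ef y ^ 2 := by
        unfold Ef
        have := qf_ne y
        field_simp
      have g3 : (![x, y] : R2) 1 = y := rfl
      rw [← g1, g3, g2]
      show -((qf y)⁻¹ * _ + _ + _ + _) = _
      have g4 : (qf y)⁻¹ = Ef y := rfl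
      rw [g4]
      ring
    · have e := h3 t ![x, y] 1
      have d := hasDerivAt_pd1 (dπ t) x y
      refine d.congr_deriv ?_
      rw [Fin.sum_univ_two, ME_10, ME_11, cov_u_1, cov_z_1, pd0_fl h.smooth_z,
        deriv_fl h.smooth_z, deriv_fl h.smooth_z] at e
      have e2 : pd 1 (π t) ![x, y] = -(-(pd 1 (π t) ![x, y])) := by ring
      rw [e2, ← e]
      show _ = -(qf y * (Dt (fl z 1) (t, x, y) + Uf y * Dx (fl z 1) (t, x, y))
        - Real.sin y * Ef y ^ 2 * Uf y * z t ![x, y] 0)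
      have g2 : Real.sin y / qf y ^ 2 = Real.sin y * Ef y ^ 2 := by
        unfold Ef
        have := qf_ne y
        field_simp
      have g3 : (![x, y] : R2) 1 = y := rfl
      rw [g3, g2]
      ring

end Pool.Agent.H.MP_2725b4_gt
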