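import Mathlib

/-!
Definitions for problem MP_2725b4_gt: the differential of the L² exponential map of the group of
volume-preserving diffeomorphisms of a two-dimensional torus with an arbitrary smooth Riemannian
metric. A torus is presented as `ℝ²/(aℤ × bℤ)`; functions, vector fields and the metric are
periodic objects on `ℝ² = Fin 2 → ℝ`.
-/

set_option autoImplicit false

open scoped ContDiff

namespace Pool.Agent.H.MP_2725b4_gt

/-- The partial derivative `∂ᵢ f (p)` of a function on `ℝ²`. -/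
noncomputable def pd (i : Fin 2) (f : (Fin 2 → ℝ) → ℝ) (p : Fin 2 → ℝ) : ℝ :=
  fderiv ℝ f p (Pi.single i 1)

/-- `f` is periodic with respect to the lattice `aℤ × bℤ`, that is, it lives on the torus. -/
def Per {α : Type} (a b : ℝ) (f : (Fin 2 → ℝ) → α) : Prop :=
  ∀ x y : ℝ, f ![x + a, y] = f ![x, y] ∧ f ![x, y + b] = f ![x, y]

/-- A smooth Riemannian metric on the torus `ℝ²/(aℤ × bℤ)`, given by its components `g i j`. -/
structure TorusMetric (a b : ℝ) where
  /-- the components of the metric in the coordinates of `ℝ²` -/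
  g : Fin 2 → Fin 2 → (Fin 2 → ℝ) → ℝ
  smooth : ∀ i j, ContDiff ℝ ∞ (g i j)
  per : ∀ i j, Per a b (g i j)
  symm : ∀ i j p, g i j p = g j i p
  pos : ∀ p v : Fin 2 → ℝ, v ≠ 0 → 0 < ∑ i, ∑ j, g i j p * v i * v j

/-- The density `√(det g)` of the Riemannian area form. -/
noncomputable def density {a b : ℝ} (M : TorusMetric a b) (p : Fin 2 → ℝ) : ℝ :=
  Real.sqrt (M.g 0 0 p * M.g 1 1 p - M.g 0 1 p * M.g 1 0 p)

/-- The vector field `X` is divergence free for the Riemannian area form: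
`∑ᵢ ∂ᵢ (√(det g) Xⁱ) = 0`. -/
def DivFree {a b : ℝ} (M : TorusMetric a b) (X : (Fin 2 → ℝ) → Fin 2 → ℝ) : Prop :=
  ∀ p, ∑ i, pd i (fun r => density M r * X r i) p = 0

/-- The `k`-th covariant component `g(∇_X Y, ∂ₖ)` of the Levi-Civita covariant derivative:
`∑ g_{kl} Xⁱ ∂ᵢ Yˡ + ∑ ½ (∂ᵢ g_{jk} + ∂ⱼ g_{ik} - ∂ₖ g_{ij}) Xⁱ Yʲ`. -/
noncomputable def cov {a b : ℝ} (M : TorusMetric a b) (X Y : (Fin 2 → ℝ) → Fin 2 → ℝ) (k : Fin 2)
    (p : Fin 2 → ℝ) : ℝ :=
  (∑ i, ∑ l, M.g k l p * X p i * pd i (fun r => Y r l) p) +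
    ∑ i, ∑ j, (pd i (M.g j k) p + pd j (M.g i k) p - pd k (M.g i j) p) / 2 * X p i * Y p j

/-- `η` is an `L²` geodesic of the group of volume-preserving diffeomorphisms of the torus with
metric `M`, starting at the identity, with Eulerian velocity field `u`: `u` solves the
incompressible Euler equations `∂ₜu + ∇ᵤu = -grad π`, `div u = 0`, and `η` is its flow.
(`u`, `η`, `π` are smooth, so the curve lies in the `Hˢ` group for every `s`.) -/
structure IsGeodesic {a b : ℝ} (M : TorusMetric a b)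
    (u η : ℝ → (Fin 2 → ℝ) → Fin 2 → ℝ) : Prop where
  smooth_u : ContDiff ℝ ∞ (fun q : ℝ × (Fin 2 → ℝ) => u q.1 q.2)
  smooth_η : ContDiff ℝ ∞ (fun q : ℝ × (Fin 2 → ℝ) => η q.1 q.2)
  per_u : ∀ t, Per a b (u t)
  /-- `η t` descends to a map of the torus -/
  equivariant_η : ∀ t x y, η t ![x + a, y] = η t ![x, y] + ![a, 0] ∧
    η t ![x, y + b] = η t ![x, y] + ![0, b]
  bijective_η : ∀ t, Function.Bijective (η t)
  /-- `η t` preserves the Riemannian area form -/
  area_η : ∀ t p, density M (η t p) *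
    (pd 0 (fun r => η t r 0) p * pd 1 (fun r => η t r 1) p -
      pd 1 (fun r => η t r 0) p * pd 0 (fun r => η t r 1) p) = density M p
  div_u : ∀ t, DivFree M (u t)
  start : ∀ p, η 0 p = p
  flow : ∀ t p, HasDerivAt (fun s => η s p) (u t (η t p)) t
  euler : ∃ π : ℝ → (Fin 2 → ℝ) → ℝ, (∀ t, ContDiff ℝ ∞ (π t)) ∧ (∀ t, Per a b (π t)) ∧
    ∀ t p k, ∑ l, M.g k l p * deriv (fun s => u s p l) t + cov M (u t) (u t) k p
      = - pd k (π t) p

/-- `J t = ξ t ∘ η t` is a Jacobi field along the geodesic `η` with `J 0 = 0`, that is, the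
derivative of a one-parameter family of geodesics starting at the identity; `z t` is the
corresponding derivative of the Eulerian velocity. It is described by the linearised Euler
equation `∂ₜz + ∇ᵤz + ∇_z u = -grad π`, `div z = 0`, and by the linearised flow equation
`∂ₜ (ξ ∘ η) = z ∘ η + Du (ξ ∘ η)`. The fields are only required to be `C¹` in time and space. -/
structure IsJacobi {a b : ℝ} (M : TorusMetric a b)
    (u η z ξ : ℝ → (Fin 2 → ℝ) → Fin 2 → ℝ) : Prop where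
  smooth_z : ContDiff ℝ 1 (fun q : ℝ × (Fin 2 → ℝ) => z q.1 q.2)
  smooth_ξ : ContDiff ℝ 1 (fun q : ℝ × (Fin 2 → ℝ) => ξ q.1 q.2)
  per_z : ∀ t, Per a b (z t)
  per_ξ : ∀ t, Per a b (ξ t)
  div_z : ∀ t, DivFree M (z t)
  div_ξ : ∀ t, DivFree M (ξ t)
  start : ∀ p, ξ 0 p = 0
  lin_flow : ∀ t p i, HasDerivAt (fun s => ξ s (η s p) i)
    (z t (η t p) i + ∑ j, pd j (fun r => u t r i) (η t p) * ξ t (η t p) j) t
  lin_euler : ∃ π : ℝ → (Fin 2 → ℝ) → ℝ, (∀ t, ContDiff ℝ 1 (π t)) ∧ (∀ t, Per a b (π t)) ∧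
    ∀ t p k, ∑ l, M.g k l p * deriv (fun s => z s p l) t + cov M (u t) (z t) k p
      + cov M (z t) (u t) k p = - pd k (π t) p

/-- Fourier coefficient of a function on the torus `ℝ²/(aℤ × bℤ)`. -/
noncomputable def fourierCoef (a b : ℝ) (f : (Fin 2 → ℝ) → ℝ) (n : ℤ × ℤ) : ℂ :=
  (1 / (a * b) : ℂ) * ∫ x in (0 : ℝ)..a, ∫ y in (0 : ℝ)..b,
    (f ![x, y] : ℂ) * Complex.exp (-(2 * Real.pi * Complex.I * (n.1 * x / a + n.2 * y / b)))

/-- `f` belongs to the Sobolev space `Hˢ` of the torus (for a continuous function `f`). -/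
def MemSobolev (a b s : ℝ) (f : (Fin 2 → ℝ) → ℝ) : Prop :=
  Summable fun n : ℤ × ℤ => (1 + (n.1 : ℝ) ^ 2 + (n.2 : ℝ) ^ 2) ^ s * ‖fourierCoef a b f n‖ ^ 2

/-- The tangent space at the identity of the group of volume-preserving diffeomorphisms of
Sobolev class `Hˢ`, `s > 2`: divergence free vector fields of class `Hˢ` on the torus
(by the Sobolev embedding theorem these are `C¹`, so divergence is meant classically). -/
def tangentSpace {a b : ℝ} (M : TorusMetric a b) (s : ℝ) : Set ((Fin 2 → ℝ) → Fin 2 → ℝ) :=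
  {w | ContDiff ℝ 1 w ∧ Per a b w ∧ DivFree M w ∧ ∀ i, MemSobolev a b s (fun p => w p i)}

/-- The kernel of the differential `d exp_e (T u₀) : T_e 𝒟ˢ → T_{η T} 𝒟ˢ` of the `L²` exponential
map at `T u₀`, where `u₀ = u 0`: the initial velocities `w` of class `Hˢ` whose Jacobi field
`J t = ξ t ∘ η t = d exp_e (t u₀) (t w)` vanishes at time `T`. -/
def dexpKer {a b : ℝ} (M : TorusMetric a b) (u η : ℝ → (Fin 2 → ℝ) → Fin 2 → ℝ) (s T : ℝ) :
    Set ((Fin 2 → ℝ) → Fin 2 → ℝ) :=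
  {w | w ∈ tangentSpace M s ∧ ∃ z ξ : ℝ → (Fin 2 → ℝ) → Fin 2 → ℝ,
    IsJacobi M u η z ξ ∧ z 0 = w ∧ ∀ p, ξ T p = 0}

end Pool.Agent.H.MP_2725b4_gt
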