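import Pool.Agent.H.MP_2725b4_gt.Energy

set_option autoImplicit false

open MeasureTheory Set

namespace Pool.Agent.H.MP_2725b4_gt

/-- difference of a function and its translate in `x` -/
def sh (d : ℝ) (F : ℝ × ℝ × ℝ → ℝ) : ℝ × ℝ × ℝ → ℝ :=
  fun p => F (p.1, p.2.1 + d, p.2.2) - F p

section shift

variable {F : ℝ × ℝ × ℝ → ℝ} (hF : ContDiff ℝ 1 F) (d : ℝ)
include hF

lemma contDiff_sh : ContDiff ℝ 1 (sh d F) := by
  unfold sh
  apply ContDiff.sub _ hF
  exact hF.comp (by fun_prop)

lemma Dt_sh (t x y : ℝ) : Dt (sh d F) (t, x, y) = Dt F (t, x + d, y) - Dt F (t, x, y) := by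
  have h1 := hasDerivAt_Dt (contDiff_sh hF d) t x y
  have h2 := (hasDerivAt_Dt hF t (x + d) y).sub (hasDerivAt_Dt hF t x y)
  exact h1.unique h2

lemma Dx_sh (t x y : ℝ) : Dx (sh d F) (t, x, y) = Dx F (t, x + d, y) - Dx F (t, x, y) := by
  have h1 := hasDerivAt_Dx (contDiff_sh hF d) t x y
  have h3 : HasDerivAt (fun s => F (t, s + d, y)) (Dx F (t, x + d, y)) x :=
    (hasDerivAt_Dx hF t (x + d) y).comp_add_const x d
  have h2 := h3.sub (hasDerivAt_Dx hF t x y)
  exact h1.unique h2

lemma Dy_sh (t x y : ℝ) : Dy (sh d F) (t, x, y) = Dy F (t, x + d, y) - Dy F (t, x, y) := by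
  have h1 := hasDerivAt_Dy (contDiff_sh hF d) t x y
  have h2 := (hasDerivAt_Dy hF t (x + d) y).sub (hasDerivAt_Dy hF t x y)
  exact h1.unique h2

end shift

lemma Per3.sh {F : ℝ × ℝ × ℝ → ℝ} (hF : Per3 F) (d : ℝ) : Per3 (sh d F) := by
  intro t x y
  have h1 := hF t (x + d) y
  have h2 := hF t x y
  unfold Pool.Agent.H.MP_2725b4_gt.sh
  have e : x + 1 / 16 + d = x + d + 1 / 16 := by ring
  simp only [e, h1.1, h1.2, h2.1, h2.2, and_self]

/-- The system is invariant under translations in `x`. -/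
theorem Flat.diff {zx zy ξx ξy : ℝ × ℝ × ℝ → ℝ} (h : Flat zx zy ξx ξy) (d : ℝ) :
    Flat (sh d zx) (sh d zy) (sh d ξx) (sh d ξy) where
  c_zx := contDiff_sh h.c_zx d
  c_zy := contDiff_sh h.c_zy d
  c_ξx := contDiff_sh h.c_ξx d
  c_ξy := contDiff_sh h.c_ξy d
  p_zx := h.p_zx.sh d
  p_zy := h.p_zy.sh d
  p_ξx := h.p_ξx.sh d
  p_ξy := h.p_ξy.sh d
  div_z := by
    rintro ⟨t, x, y⟩
    rw [Dx_sh h.c_zx, Dy_sh h.c_zy]
    linarith [h.div_z (t, x, y), h.div_z (t, x + d, y)]
  div_ξ := by
    rintro ⟨t, x, y⟩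
    rw [Dx_sh h.c_ξx, Dy_sh h.c_ξy]
    linarith [h.div_ξ (t, x, y), h.div_ξ (t, x + d, y)]
  start_x := by
    intro x y
    simp [sh, h.start_x]
  start_y := by
    intro x y
    simp [sh, h.start_y]
  flow_x := by
    rintro ⟨t, x, y⟩
    rw [Dt_sh h.c_ξx, Dx_sh h.c_ξx]
    have h1 := h.flow_x (t, x, y)
    have h2 := h.flow_x (t, x + d, y)
    simp only [sh] at h1 h2 ⊢
    linear_combination h2 - h1
  flow_y := by
    rintro ⟨t, x, y⟩
    rw [Dt_sh h.c_ξy, Dx_sh h.c_ξy]
    have h1 := h.flow_y (t, x, y)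
    have h2 := h.flow_y (t, x + d, y)
    simp only [sh] at h1 h2 ⊢
    linear_combination h2 - h1
  euler := by
    obtain ⟨P, hPc, hPper, hPx, hPy⟩ := h.euler
    refine ⟨fun t q => P t (q.1 + d, q.2) - P t q, fun t => ?_, fun t x y => ?_,
      fun t x y => ?_, fun t x y => ?_⟩
    · have := hPc t
      fun_prop
    · have h1 := hPper t (x + d) y
      have h2 := hPper t x y
      have e : x + 1 / 16 + d = x + d + 1 / 16 := by ring
      simp only [e, h1.1, h1.2, h2.1, h2.2, and_self]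
    · have h3 : HasDerivAt (fun s => P t (s + d, y)) _ x :=
        (hPx t (x + d) y).comp_add_const x d
      refine (h3.sub (hPx t x y)).congr_deriv ?_
      rw [Dt_sh h.c_zx, Dx_sh h.c_zx]
      simp only [sh]
      ring
    · refine ((hPy t (x + d) y).sub (hPy t x y)).congr_deriv ?_
      rw [Dt_sh h.c_zy, Dx_sh h.c_zy]
      simp only [sh]
      ring

/-- differentiation under the integral sign for a continuous derivative -/
lemma hasDerivAt_param {G G' : ℝ → ℝ → ℝ} (hG : Continuous (Function.uncurry G))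
    (hG' : Continuous (Function.uncurry G'))
    (hd : ∀ x s, HasDerivAt (fun x => G x s) (G' x s) x) (d x : ℝ) :
    HasDerivAt (fun x => ∫ s in (0 : ℝ)..d, G x s) (∫ s in (0 : ℝ)..d, G' x s) x := by
  have hc : IsCompact (Metric.closedBall x 1 ×ˢ uIcc (0 : ℝ) d) :=
    (isCompact_closedBall x 1).prod isCompact_uIcc
  obtain ⟨C, hC⟩ := hc.exists_bound_of_continuousOn hG'.continuousOn
  refine (intervalIntegral.hasDerivAt_integral_of_dominated_loc_of_deriv_le
    (s := Metric.ball x 1) (bound := fun _ => C) (Metric.ball_mem_nhds x one_pos) ?_ ?_ ?_ ?_ ?_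
    ?_).2
  · refine Filter.Eventually.of_forall (fun z => ?_)
    exact (hG.comp (Continuous.prodMk_right z)).aestronglyMeasurable
  · exact (hG.comp (Continuous.prodMk_right x)).intervalIntegrable _ _
  · exact (hG'.comp (Continuous.prodMk_right x)).aestronglyMeasurable
  · refine Filter.Eventually.of_forall (fun s hs z hz => ?_)
    exact hC (z, s) ⟨Metric.ball_subset_closedBall hz, uIoc_subset_uIcc hs⟩
  · exact intervalIntegrable_const
  · exact Filter.Eventually.of_forall (fun s _ z _ => hd z s)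

/-- Jacobi fields vanishing at times `0` and `T ≤ 8π` do not depend on `x` for `0 ≤ t ≤ T`. -/
theorem x_independent {zx zy ξx ξy : ℝ × ℝ × ℝ → ℝ} {T : ℝ} (h : Flat zx zy ξx ξy)
    (hT : 0 < T) (hT8 : T ≤ 8 * Real.pi)
    (ex : ∀ x y, ξx (T, x, y) = 0) (ey : ∀ x y, ξy (T, x, y) = 0) (d : ℝ) :
    ∀ t x y, 0 ≤ t → t ≤ T → sh d zx (t, x, y) = 0 ∧ sh d zy (t, x, y) = 0 ∧
      sh d ξx (t, x, y) = 0 ∧ sh d ξy (t, x, y) = 0 := by
  have c1 := h.c_zy.continuous
  have c2 := continuous_Dx h.c_zy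
  have c3 := continuous_Dy h.c_zy
  have c4 := continuous_Dx h.c_zx
  refine energy_vanish (ψ := fun p => ∫ s in (0 : ℝ)..d, zy (p.1, p.2.1 + s, p.2.2))
    (h.diff d) ?_ ?_ ?_ ?_ ?_ hT hT8 ?_ ?_
  · apply intervalIntegral.continuous_parametric_intervalIntegral_of_continuous'
    fun_prop
  · intro t x y
    have e1 : ∀ s, zy (t, x + 1 / 16 + s, y) = zy (t, x + s, y) := by
      intro s
      have := (h.p_zy t (x + s) y).1
      rw [← this]
      congr 3
      ring
    have e2 : ∀ s, zy (t, x + s, y + 2 * Real.pi) = zy (t, x + s, y) := by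
      intro s
      exact (h.p_zy t (x + s) y).2
    simp only [e1, e2, and_self]
  · intro t x y
    have h1 := hasDerivAt_param (G := fun x s => zy (t, x + s, y))
      (G' := fun x s => Dx zy (t, x + s, y)) (by fun_prop) (by fun_prop)
      (fun x s => (hasDerivAt_Dx h.c_zy t (x + s) y).comp_add_const x s) d x
    refine h1.congr_deriv ?_
    have h2 : ∀ s, HasDerivAt (fun s => zy (t, x + s, y)) (Dx zy (t, x + s, y)) s := fun s => by
      have := (hasDerivAt_Dx h.c_zy t (x + s) y).comp_const_add x s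
      exact this
    rw [intervalIntegral.integral_eq_sub_of_hasDerivAt (fun s _ => h2 s)
      (Continuous.intervalIntegrable (by fun_prop) _ _)]
    simp [sh]
  · intro t x y
    have h1 := hasDerivAt_param (G := fun y s => zy (t, x + s, y))
      (G' := fun y s => Dy zy (t, x + s, y)) (by fun_prop) (by fun_prop)
      (fun y s => (hasDerivAt_Dy h.c_zy t (x + s) y)) d y
    refine h1.congr_deriv ?_
    have h2 : ∀ s, HasDerivAt (fun s => -zx (t, x + s, y)) (Dy zy (t, x + s, y)) s := fun s => by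
      have := ((hasDerivAt_Dx h.c_zx t (x + s) y).comp_const_add x s).neg
      refine this.congr_deriv ?_
      linarith [h.div_z (t, x + s, y)]
    rw [intervalIntegral.integral_eq_sub_of_hasDerivAt (fun s _ => h2 s)
      (Continuous.intervalIntegrable (by fun_prop) _ _)]
    simp [sh]
    ring
  · intro t y
    have c5 := h.c_ξy.continuous
    have p1 : Function.Periodic (fun x => ξy (t, x, y)) (1 / 16) := fun x => (h.p_ξy t x y).1
    simp only [sh]
    rw [intervalIntegral.integral_sub (Continuous.intervalIntegrable (by fun_prop) _ _)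
      (Continuous.intervalIntegrable (by fun_prop) _ _)]
    have e1 : ∫ x in (0 : ℝ)..(1 / 16), ξy (t, x + d, y)
        = ∫ x in (0 + d)..(1 / 16 + d), ξy (t, x, y) :=
      intervalIntegral.integral_comp_add_right (fun x => ξy (t, x, y)) d
    have e2 := p1.intervalIntegral_add_eq (0 + d) 0
    rw [e1]
    have e3 : (1 : ℝ) / 16 + d = 0 + d + 1 / 16 := by ring
    rw [e3, e2, zero_add, sub_self]
  · intro x y
    simp [sh, ex]
  · intro x y
    simp [sh, ey]

end Pool.Agent.H.MP_2725b4_gt
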