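import Pool.Agent.H.MP_2725b4_gt.Flat

set_option autoImplicit false

open MeasureTheory Set

namespace Pool.Agent.H.MP_2725b4_gt

variable {zx zy ξx ξy ψ : ℝ × ℝ × ℝ → ℝ} {T : ℝ}

/-- (S1): the energy identity. -/
lemma energy_identity (h : Flat zx zy ξx ξy) (hT : 0 < T)
    (ex : ∀ x y, ξx (T, x, y) = 0) (ey : ∀ x y, ξy (T, x, y) = 0) :
    ∫ p in bx T (1 / 16) (2 * Real.pi), (Ef p.2.2 * zx p ^ 2 + qf p.2.2 * zy p ^ 2)
      = ∫ p in bx T (1 / 16) (2 * Real.pi),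
        (Real.sin p.2.2 / 4 * (zy p * ξx p - zx p * ξy p)) := by
  obtain ⟨P, hPc, hPper, hPx, hPy⟩ := h.euler
  have c1 := h.c_zx.continuous
  have c2 := h.c_zy.continuous
  have c3 := h.c_ξx.continuous
  have c4 := h.c_ξy.continuous
  have c5 := continuous_Dt h.c_zx
  have c6 := continuous_Dt h.c_zy
  have c7 := continuous_Dt h.c_ξx
  have c8 := continuous_Dt h.c_ξy
  have c9 := continuous_Dx h.c_zx
  have c10 := continuous_Dx h.c_zy
  have c11 := continuous_Dx h.c_ξx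
  have c12 := continuous_Dx h.c_ξy
  have c13 := continuous_Dy h.c_ξy
  have cU := continuous_Uf
  have cE := continuous_Ef
  have cq := continuous_qf
  have cdU := continuous_dUf
  -- time derivative
  have i1 : ∫ p in bx T (1 / 16) (2 * Real.pi),
      (Ef p.2.2 * (Dt zx p * ξx p + zx p * Dt ξx p) + qf p.2.2 * (Dt zy p * ξy p + zy p * Dt ξy p))
      = 0 := by
    apply integral_bx_dt (F := fun p => Ef p.2.2 * (zx p * ξx p) + qf p.2.2 * (zy p * ξy p))
      (by fun_prop) hT.le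
    · intro t x y
      exact (((hasDerivAt_Dt h.c_zx t x y).mul (hasDerivAt_Dt h.c_ξx t x y)).const_mul
        (Ef y)).add (((hasDerivAt_Dt h.c_zy t x y).mul (hasDerivAt_Dt h.c_ξy t x y)).const_mul
        (qf y))
    · intro x y
      simp [ex x y, ey x y, h.start_x x y, h.start_y x y]
  have i2 : ∫ p in bx T (1 / 16) (2 * Real.pi), (Uf p.2.2 *
      (Ef p.2.2 * (Dx zx p * ξx p + zx p * Dx ξx p) + qf p.2.2 * (Dx zy p * ξy p + zy p * Dx ξy p)))
      = 0 := by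
    apply integral_bx_dx (F := fun p => Uf p.2.2 * (Ef p.2.2 * (zx p * ξx p)
      + qf p.2.2 * (zy p * ξy p))) (by fun_prop) (by norm_num)
    · intro t x y
      exact ((((hasDerivAt_Dx h.c_zx t x y).mul (hasDerivAt_Dx h.c_ξx t x y)).const_mul
        (Ef y)).add (((hasDerivAt_Dx h.c_zy t x y).mul (hasDerivAt_Dx h.c_ξy t x y)).const_mul
        (qf y))).const_mul (Uf y)
    · intro t y
      have h1 := (h.p_zx t 0 y).1
      have h2 := (h.p_zy t 0 y).1
      have h3 := (h.p_ξx t 0 y).1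
      have h4 := (h.p_ξy t 0 y).1
      rw [zero_add] at h1 h2 h3 h4
      simp only [h1, h2, h3, h4]
  -- pressure
  have i3 : ∫ p in bx T (1 / 16) (2 * Real.pi),
      (-(Ef p.2.2 * (Dt zx p + Uf p.2.2 * Dx zx p) + Real.sin p.2.2 / 4 * zy p) * ξx p
       + -(qf p.2.2 * (Dt zy p + Uf p.2.2 * Dx zy p)
        - Real.sin p.2.2 * Ef p.2.2 ^ 2 * Uf p.2.2 * zx p) * ξy p) = 0 := by
    apply integral_bx_eq_zero (by fun_prop)
    intro t
    have cP := hPc t
    have j1 : ∫ q in cell (1 / 16) (2 * Real.pi),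
        (-(Ef q.2 * (Dt zx (t, q) + Uf q.2 * Dx zx (t, q)) + Real.sin q.2 / 4 * zy (t, q))
          * ξx (t, q) + P t q * Dx ξx (t, q)) = 0 := by
      apply integral_cell_dx (F := fun q => P t q * ξx (t, q)) (by fun_prop) (by norm_num)
      · intro x y
        exact (hPx t x y).mul (hasDerivAt_Dx h.c_ξx t x y)
      · intro y
        have h1 := (hPper t 0 y).1
        have h2 := (h.p_ξx t 0 y).1
        rw [zero_add] at h1 h2
        simp only [h1, h2]
    have j2 : ∫ q in cell (1 / 16) (2 * Real.pi),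
        (-(qf q.2 * (Dt zy (t, q) + Uf q.2 * Dx zy (t, q))
        - Real.sin q.2 * Ef q.2 ^ 2 * Uf q.2 * zx (t, q)) * ξy (t, q)
         + P t q * Dy ξy (t, q)) = 0 := by
      apply integral_cell_dy (F := fun q => P t q * ξy (t, q)) (by fun_prop) two_pi_nonneg
      · intro x y
        exact (hPy t x y).mul (hasDerivAt_Dy h.c_ξy t x y)
      · intro x
        have h1 := (hPper t x 0).2
        have h2 := (h.p_ξy t x 0).2
        rw [zero_add] at h1 h2
        simp only [h1, h2]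
    have e : ∀ q : ℝ × ℝ,
      (-(Ef q.2 * (Dt zx (t, q) + Uf q.2 * Dx zx (t, q)) + Real.sin q.2 / 4 * zy (t, q))
        * ξx (t, q)
       + -(qf q.2 * (Dt zy (t, q) + Uf q.2 * Dx zy (t, q))
        - Real.sin q.2 * Ef q.2 ^ 2 * Uf q.2 * zx (t, q)) * ξy (t, q))
      = (-(Ef q.2 * (Dt zx (t, q) + Uf q.2 * Dx zx (t, q)) + Real.sin q.2 / 4 * zy (t, q))
          * ξx (t, q) + P t q * Dx ξx (t, q))
        + (-(qf q.2 * (Dt zy (t, q) + Uf q.2 * Dx zy (t, q))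
        - Real.sin q.2 * Ef q.2 ^ 2 * Uf q.2 * zx (t, q)) * ξy (t, q)
         + P t q * Dy ξy (t, q)) := by
      intro q
      have := h.div_ξ (t, q)
      have e1 : Dy ξy (t, q) = - Dx ξx (t, q) := by linarith
      rw [e1]
      ring
    simp only [e]
    rw [integral_add (integrableOn_cell (by fun_prop) _ _) (integrableOn_cell (by fun_prop) _ _),
      j1, j2, add_zero]
  -- pointwise identity
  have e : ∀ p : ℝ × ℝ × ℝ, Ef p.2.2 * zx p ^ 2 + qf p.2.2 * zy p ^ 2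
      = (((Ef p.2.2 * (Dt zx p * ξx p + zx p * Dt ξx p)
          + qf p.2.2 * (Dt zy p * ξy p + zy p * Dt ξy p))
        + (Uf p.2.2 * (Ef p.2.2 * (Dx zx p * ξx p + zx p * Dx ξx p)
          + qf p.2.2 * (Dx zy p * ξy p + zy p * Dx ξy p))))
        + (-(Ef p.2.2 * (Dt zx p + Uf p.2.2 * Dx zx p) + Real.sin p.2.2 / 4 * zy p) * ξx p
       + -(qf p.2.2 * (Dt zy p + Uf p.2.2 * Dx zy p)
        - Real.sin p.2.2 * Ef p.2.2 ^ 2 * Uf p.2.2 * zx p) * ξy p))
        + Real.sin p.2.2 / 4 * (zy p * ξx p - zx p * ξy p) := by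
    intro p
    have f1 : Dt ξx p = zx p + dUf p.2.2 * ξy p - Uf p.2.2 * Dx ξx p := by
      linarith [h.flow_x p]
    have f2 : Dt ξy p = zy p - Uf p.2.2 * Dx ξy p := by
      linarith [h.flow_y p]
    rw [f1, f2]
    have g1 : Ef p.2.2 * dUf p.2.2 + Real.sin p.2.2 * Ef p.2.2 ^ 2 * Uf p.2.2
        = Real.sin p.2.2 / 4 := by
      unfold Ef dUf Uf
      have := qf_ne p.2.2
      field_simp
      ring
    linear_combination (-(zx p * ξy p)) * g1
  have cI1 : Continuous fun p : ℝ × ℝ × ℝ =>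
      (Ef p.2.2 * (Dt zx p * ξx p + zx p * Dt ξx p)
          + qf p.2.2 * (Dt zy p * ξy p + zy p * Dt ξy p)) := by fun_prop
  have cI2 : Continuous fun p : ℝ × ℝ × ℝ =>
      (Uf p.2.2 * (Ef p.2.2 * (Dx zx p * ξx p + zx p * Dx ξx p)
          + qf p.2.2 * (Dx zy p * ξy p + zy p * Dx ξy p))) := by fun_prop
  have cI3 : Continuous fun p : ℝ × ℝ × ℝ =>
      (-(Ef p.2.2 * (Dt zx p + Uf p.2.2 * Dx zx p) + Real.sin p.2.2 / 4 * zy p) * ξx p
       + -(qf p.2.2 * (Dt zy p + Uf p.2.2 * Dx zy p)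
        - Real.sin p.2.2 * Ef p.2.2 ^ 2 * Uf p.2.2 * zx p) * ξy p) := by fun_prop
  have cI4 : Continuous fun p : ℝ × ℝ × ℝ =>
      Real.sin p.2.2 / 4 * (zy p * ξx p - zx p * ξy p) := by fun_prop
  simp only [e]
  rw [I_add (by fun_prop) cI4, I_add (by fun_prop) cI3, I_add cI1 cI2, i1, i2, i3]
  ring

/-- (S2): integration by parts with the stream function `ψ`. -/
lemma stream_identity (h : Flat zx zy ξx ξy) (cψ : Continuous ψ) (pψ : Per3 ψ)
    (hψx : ∀ t x y, HasDerivAt (fun s => ψ (t, s, y)) (zy (t, x, y)) x)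
    (hψy : ∀ t x y, HasDerivAt (fun s => ψ (t, x, s)) (-zx (t, x, y)) y) :
    (∫ p in bx T (1 / 16) (2 * Real.pi), (Real.sin p.2.2 / 4 * (zy p * ξx p - zx p * ξy p)))
      + ∫ p in bx T (1 / 16) (2 * Real.pi), (Real.cos p.2.2 / 4 * ψ p * ξy p) = 0 := by
  have c1 := h.c_zx.continuous
  have c2 := h.c_zy.continuous
  have c3 := h.c_ξx.continuous
  have c4 := h.c_ξy.continuous
  have c11 := continuous_Dx h.c_ξx
  have c13 := continuous_Dy h.c_ξy
  have i1 : ∫ p in bx T (1 / 16) (2 * Real.pi),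
      (Real.sin p.2.2 / 4 * (zy p * ξx p + ψ p * Dx ξx p)) = 0 := by
    apply integral_bx_dx (F := fun p => Real.sin p.2.2 / 4 * (ψ p * ξx p)) (by fun_prop)
      (by norm_num)
    · intro t x y
      exact ((hψx t x y).mul (hasDerivAt_Dx h.c_ξx t x y)).const_mul (Real.sin y / 4)
    · intro t y
      have h1 := (pψ t 0 y).1
      have h3 := (h.p_ξx t 0 y).1
      rw [zero_add] at h1 h3
      simp only [h1, h3]
  have i2 : ∫ p in bx T (1 / 16) (2 * Real.pi),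
      (Real.cos p.2.2 / 4 * (ψ p * ξy p) + Real.sin p.2.2 / 4 * (-zx p * ξy p + ψ p * Dy ξy p))
        = 0 := by
    apply integral_bx_dy (F := fun p => Real.sin p.2.2 / 4 * (ψ p * ξy p)) (by fun_prop)
      two_pi_nonneg
    · intro t x y
      exact ((Real.hasDerivAt_sin y).div_const 4).mul
        ((hψy t x y).mul (hasDerivAt_Dy h.c_ξy t x y))
    · intro t x
      simp
  rw [← I_add (by fun_prop) (by fun_prop)]
  have e : ∀ p : ℝ × ℝ × ℝ, Real.sin p.2.2 / 4 * (zy p * ξx p - zx p * ξy p)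
      + Real.cos p.2.2 / 4 * ψ p * ξy p
      = (Real.sin p.2.2 / 4 * (zy p * ξx p + ψ p * Dx ξx p))
        + (Real.cos p.2.2 / 4 * (ψ p * ξy p)
          + Real.sin p.2.2 / 4 * (-zx p * ξy p + ψ p * Dy ξy p)) := by
    intro p
    have := h.div_ξ p
    have e1 : Dy ξy p = - Dx ξx p := by linarith
    rw [e1]
    ring
  simp only [e]
  rw [I_add (by fun_prop) (by fun_prop), i1, i2, add_zero]

/-- Jacobi fields with a single valued stream function and zero average along the closed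
streamlines vanish if they vanish at times `0` and `T ≤ 8π`. -/
theorem energy_vanish (h : Flat zx zy ξx ξy) (cψ : Continuous ψ) (pψ : Per3 ψ)
    (hψx : ∀ t x y, HasDerivAt (fun s => ψ (t, s, y)) (zy (t, x, y)) x)
    (hψy : ∀ t x y, HasDerivAt (fun s => ψ (t, x, s)) (-zx (t, x, y)) y)
    (mean : ∀ t y, ∫ x in (0 : ℝ)..(1 / 16), ξy (t, x, y) = 0)
    (hT : 0 < T) (hT8 : T ≤ 8 * Real.pi)
    (ex : ∀ x y, ξx (T, x, y) = 0) (ey : ∀ x y, ξy (T, x, y) = 0) :
    ∀ t x y, 0 ≤ t → t ≤ T → zx (t, x, y) = 0 ∧ zy (t, x, y) = 0 ∧ ξx (t, x, y) = 0 ∧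
      ξy (t, x, y) = 0 := by
  have c1 := h.c_zx.continuous
  have c2 := h.c_zy.continuous
  have c3 := h.c_ξx.continuous
  have c4 := h.c_ξy.continuous
  have cE := continuous_Ef
  have cq := continuous_qf
  have cdU := continuous_dUf
  set B := bx T (1 / 16) (2 * Real.pi) with hB
  set X := ∫ p in B, Ef p.2.2 * zx p ^ 2 with hX
  set Y := ∫ p in B, qf p.2.2 * zy p ^ 2 with hY
  set Z := ∫ p in B, zy p ^ 2 with hZ
  set W := ∫ p in B, ξy p ^ 2 with hW
  have s1 : X + Y = ∫ p in B, (Real.sin p.2.2 / 4 * (zy p * ξx p - zx p * ξy p)) := by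
    rw [hX, hY, ← I_add (by fun_prop) (by fun_prop)]
    exact energy_identity h hT ex ey
  have s2 := stream_identity (T := T) h cψ pψ hψx hψy
  rw [← hB, ← s1] at s2
  have s3 : 0 ≤ ∫ p in B, (1 / 64 * (2 * T / 2 * zy p ^ 2
      + 1 / (2 * (2 * T)) * ξy p ^ 2) + Real.cos p.2.2 / 4 * ψ p * ξy p) := by
    apply integral_bx_nonneg_of_slices (by fun_prop)
    intro t y
    exact slice_ineq t y (by positivity) cψ c2 c4 hψx mean
  have s3' : ∫ p in B, (1 / 64 * (2 * T / 2 * zy p ^ 2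
      + 1 / (2 * (2 * T)) * ξy p ^ 2) + Real.cos p.2.2 / 4 * ψ p * ξy p)
      = 1 / 64 * (2 * T / 2 * Z + 1 / (2 * (2 * T)) * W)
        + ∫ p in B, Real.cos p.2.2 / 4 * ψ p * ξy p := by
    rw [I_add (by fun_prop) (by fun_prop), integral_const_mul,
      I_add (by fun_prop) (by fun_prop), integral_const_mul, integral_const_mul]
  rw [s3'] at s3
  have s4 : W ≤ 4 * T ^ 2 * Z :=
    transport_estimate h.c_ξy c2 h.p_ξy hT ey h.flow_y
  have hX0 : 0 ≤ X := setIntegral_nonneg (measurableSet_bx _ _ _)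
    (fun p _ => mul_nonneg (Ef_pos _).le (sq_nonneg _))
  have hYZ : Z ≤ Y := by
    apply I_mono (by fun_prop) (by fun_prop)
    intro p _
    nlinarith [one_le_qf p.2.2, sq_nonneg (zy p)]
  have hZ0 : 0 ≤ Z := setIntegral_nonneg (measurableSet_bx _ _ _) (fun p _ => sq_nonneg _)
  have hpi : Real.pi < 3.15 := Real.pi_lt_d2
  have s5 : X + Y ≤ T / 32 * Z := by
    have h1 : X + Y = - ∫ p in B, Real.cos p.2.2 / 4 * ψ p * ξy p := by linarith
    have h2 : 1 / (2 * (2 * T)) * W ≤ T * Z := by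
      have h3 : 1 / (2 * (2 * T)) * W ≤ 1 / (2 * (2 * T)) * (4 * T ^ 2 * Z) := by gcongr
      have h4 : 1 / (2 * (2 * T)) * (4 * T ^ 2 * Z) = T * Z := by field_simp; ring
      linarith
    have h5 : 1 / 64 * (2 * T / 2 * Z + 1 / (2 * (2 * T)) * W) ≤ T / 32 * Z := by
      linarith
    linarith
  have s6 : T / 32 ≤ 0.7875 := by nlinarith
  have s7 : T / 32 * Z ≤ 0.7875 * Z := mul_le_mul_of_nonneg_right s6 hZ0
  have hZz : Z = 0 := by nlinarith
  have hXz : X = 0 := by nlinarith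
  have hWz : W = 0 := by
    have hW0 : 0 ≤ W := setIntegral_nonneg (measurableSet_bx _ _ _) (fun p _ => sq_nonneg _)
    rw [hZz] at s4
    linarith
  have ha : (0 : ℝ) < 1 / 16 := by norm_num
  have hb : (0 : ℝ) < 2 * Real.pi := by positivity
  -- vanishing on the closed box
  have vzy : ∀ t x y, 0 ≤ t → t ≤ T → 0 ≤ x → x ≤ 1 / 16 → 0 ≤ y → y ≤ 2 * Real.pi →
      zy (t, x, y) = 0 := by
    intro t x y h1 h2 h3 h4 h5 h6
    have := eq_zero_of_integral_bx (f := fun p => zy p ^ 2) (by fun_prop)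
      (fun p _ => sq_nonneg _) hZz t x y h1 h2 h3 h4 h5 h6 hT ha hb
    exact pow_eq_zero_iff (two_ne_zero) |>.mp this
  have vzx : ∀ t x y, 0 ≤ t → t ≤ T → 0 ≤ x → x ≤ 1 / 16 → 0 ≤ y → y ≤ 2 * Real.pi →
      zx (t, x, y) = 0 := by
    intro t x y h1 h2 h3 h4 h5 h6
    have := eq_zero_of_integral_bx (f := fun p => Ef p.2.2 * zx p ^ 2) (by fun_prop)
      (fun p _ => mul_nonneg (Ef_pos _).le (sq_nonneg _)) hXz t x y h1 h2 h3 h4 h5 h6 hT ha hb
    have h7 := (mul_eq_zero.mp this).resolve_left (Ef_pos _).ne'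
    exact pow_eq_zero_iff (two_ne_zero) |>.mp h7
  have vξy : ∀ t x y, 0 ≤ t → t ≤ T → 0 ≤ x → x ≤ 1 / 16 → 0 ≤ y → y ≤ 2 * Real.pi →
      ξy (t, x, y) = 0 := by
    intro t x y h1 h2 h3 h4 h5 h6
    have := eq_zero_of_integral_bx (f := fun p => ξy p ^ 2) (by fun_prop)
      (fun p _ => sq_nonneg _) hWz t x y h1 h2 h3 h4 h5 h6 hT ha hb
    exact pow_eq_zero_iff (two_ne_zero) |>.mp this
  -- ξx
  have s8 : ∫ p in B, ξx p ^ 2 ≤ 4 * T ^ 2 * ∫ p in B, (zx p + dUf p.2.2 * ξy p) ^ 2 :=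
    transport_estimate h.c_ξx (by fun_prop) h.p_ξx hT ex h.flow_x
  have s9 : ∫ p in B, (zx p + dUf p.2.2 * ξy p) ^ 2 = 0 := by
    apply setIntegral_eq_zero_of_forall_eq_zero
    rintro ⟨t, x, y⟩ hp
    have ht := hp.1
    have hx := hp.2.1
    have hy := hp.2.2
    simp only at ht hx hy
    simp only
    rw [vzx t x y ht.1.le ht.2 hx.1.le hx.2 hy.1.le hy.2,
      vξy t x y ht.1.le ht.2 hx.1.le hx.2 hy.1.le hy.2]
    ring
  have hVz : ∫ p in B, ξx p ^ 2 = 0 := by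
    have h0 : 0 ≤ ∫ p in B, ξx p ^ 2 :=
      setIntegral_nonneg (measurableSet_bx _ _ _) (fun p _ => sq_nonneg _)
    rw [s9] at s8
    linarith
  have vξx : ∀ t x y, 0 ≤ t → t ≤ T → 0 ≤ x → x ≤ 1 / 16 → 0 ≤ y → y ≤ 2 * Real.pi →
      ξx (t, x, y) = 0 := by
    intro t x y h1 h2 h3 h4 h5 h6
    have := eq_zero_of_integral_bx (f := fun p => ξx p ^ 2) (by fun_prop)
      (fun p _ => sq_nonneg _) hVz t x y h1 h2 h3 h4 h5 h6 hT ha hb
    exact pow_eq_zero_iff (two_ne_zero) |>.mp this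
  -- extension by periodicity
  have ext : ∀ f : ℝ × ℝ × ℝ → ℝ, Per3 f →
      (∀ t x y, 0 ≤ t → t ≤ T → 0 ≤ x → x ≤ 1 / 16 → 0 ≤ y → y ≤ 2 * Real.pi →
        f (t, x, y) = 0) → ∀ t x y, 0 ≤ t → t ≤ T → f (t, x, y) = 0 := by
    intro f pf hf t x y h1 h2
    have p1 : Function.Periodic (fun x => f (t, x, y)) (1 / 16) := fun x => (pf t x y).1
    obtain ⟨x', hx', hxe⟩ := p1.exists_mem_Ico₀ ha x
    have p2 : Function.Periodic (fun y => f (t, x', y)) (2 * Real.pi) := fun y => (pf t x' y).2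
    obtain ⟨y', hy', hye⟩ := p2.exists_mem_Ico₀ hb y
    rw [hxe, hye]
    exact hf t x' y' h1 h2 hx'.1 hx'.2.le hy'.1 hy'.2.le
  intro t x y h1 h2
  exact ⟨ext zx h.p_zx vzx t x y h1 h2, ext zy h.p_zy vzy t x y h1 h2,
    ext ξx h.p_ξx vξx t x y h1 h2, ext ξy h.p_ξy vξy t x y h1 h2⟩

end Pool.Agent.H.MP_2725b4_gt
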