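import Pool.Agent.H.MP_2725b4_gt.Kernel

set_option autoImplicit false
set_option linter.unusedSimpArgs false

open scoped ContDiff

namespace Pool.Agent.H.MP_2725b4_gt

/-- `q(y) = 2 + cos y`. -/
noncomputable def qf (y : ℝ) : ℝ := 2 + Real.cos y
/-- `m(y) = 1 - cos y / 4`. -/
noncomputable def mf (y : ℝ) : ℝ := 1 - Real.cos y / 4
/-- `U = q m`. -/
noncomputable def Uf (y : ℝ) : ℝ := qf y * mf y
/-- the derivative of `U`. -/
noncomputable def dUf (y : ℝ) : ℝ := - Real.sin y * mf y + qf y * (Real.sin y / 4)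

lemma qf_pos (y : ℝ) : 0 < qf y := by
  unfold qf; linarith [Real.neg_one_le_cos y]

lemma one_le_qf (y : ℝ) : 1 ≤ qf y := by
  unfold qf; linarith [Real.neg_one_le_cos y]

lemma qf_ne (y : ℝ) : qf y ≠ 0 := (qf_pos y).ne'

lemma hasDerivAt_qf (y : ℝ) : HasDerivAt qf (-Real.sin y) y := by
  exact (Real.hasDerivAt_cos y).const_add 2

lemma hasDerivAt_mf (y : ℝ) : HasDerivAt mf (Real.sin y / 4) y := by
  have : HasDerivAt mf (-(-Real.sin y / 4)) y :=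
    ((Real.hasDerivAt_cos y).div_const 4).const_sub 1
  exact this.congr_deriv (by ring)

lemma hasDerivAt_Uf (y : ℝ) : HasDerivAt Uf (dUf y) y := by
  exact (hasDerivAt_qf y).mul (hasDerivAt_mf y)

lemma hasDerivAt_inv_qf (y : ℝ) : HasDerivAt (fun y => (qf y)⁻¹) (Real.sin y / qf y ^ 2) y := by
  have : HasDerivAt (fun y => (qf y)⁻¹) (-(-Real.sin y) / qf y ^ 2) y :=
    (hasDerivAt_qf y).inv (qf_ne y)
  exact this.congr_deriv (by ring)

lemma contDiff_qf : ContDiff ℝ ∞ qf := by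
  unfold qf; exact contDiff_const.add Real.contDiff_cos

lemma contDiff_mf : ContDiff ℝ ∞ mf := by
  unfold mf; exact contDiff_const.sub (Real.contDiff_cos.div_const 4)

lemma contDiff_Uf : ContDiff ℝ ∞ Uf := by
  unfold Uf; exact contDiff_qf.mul contDiff_mf

lemma contDiff_inv_qf : ContDiff ℝ ∞ (fun y => (qf y)⁻¹) := contDiff_qf.inv qf_ne

lemma contDiff_snd : ContDiff ℝ ∞ (fun p : R2 => p 1) := contDiff_apply ℝ ℝ 1
lemma contDiff_fst : ContDiff ℝ ∞ (fun p : R2 => p 0) := contDiff_apply ℝ ℝ 0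

/-- The metric `dx²/(2 + cos y) + (2 + cos y) dy²` on `ℝ²/((1/16)ℤ × 2πℤ)`. -/
noncomputable def ME : TorusMetric (1 / 16) (2 * Real.pi) where
  g := ![![fun p => (qf (p 1))⁻¹, fun _ => 0], ![fun _ => 0, fun p => qf (p 1)]]
  smooth := by
    intro i j
    fin_cases i <;> fin_cases j
    · exact contDiff_inv_qf.comp contDiff_snd
    · exact contDiff_const
    · exact contDiff_const
    · exact contDiff_qf.comp contDiff_snd
  per := by
    intro i j x y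
    fin_cases i <;> fin_cases j <;> simp [qf]
  symm := by
    intro i j p
    fin_cases i <;> fin_cases j <;> rfl
  pos := by
    intro p v hv
    simp only [Fin.sum_univ_two]
    have h0 := qf_pos (p 1)
    have h1 : 0 < (qf (p 1))⁻¹ := inv_pos.mpr h0
    have e : (![![fun p => (qf (p 1))⁻¹, fun _ => 0], ![fun _ => 0, fun p => qf (p 1)]] :
        Fin 2 → Fin 2 → R2 → ℝ) 0 0 p = (qf (p 1))⁻¹ := rfl
    have e1 : (![![fun p => (qf (p 1))⁻¹, fun _ => 0], ![fun _ => 0, fun p => qf (p 1)]] :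
        Fin 2 → Fin 2 → R2 → ℝ) 0 1 p = 0 := rfl
    have e2 : (![![fun p => (qf (p 1))⁻¹, fun _ => 0], ![fun _ => 0, fun p => qf (p 1)]] :
        Fin 2 → Fin 2 → R2 → ℝ) 1 0 p = 0 := rfl
    have e3 : (![![fun p => (qf (p 1))⁻¹, fun _ => 0], ![fun _ => 0, fun p => qf (p 1)]] :
        Fin 2 → Fin 2 → R2 → ℝ) 1 1 p = qf (p 1) := rfl
    rw [e, e1, e2, e3]
    by_cases hv0 : v 0 = 0
    · have hv1 : v 1 ≠ 0 := by
        intro h
        apply hv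
        funext i
        fin_cases i
        · exact hv0
        · exact h
      have : 0 < v 1 ^ 2 := by positivity
      rw [hv0]
      nlinarith
    · have : 0 < v 0 ^ 2 := by positivity
      nlinarith [sq_nonneg (v 1), mul_nonneg h0.le (sq_nonneg (v 1)), mul_pos h1 this]

lemma ME_00 (p : R2) : ME.g 0 0 p = (qf (p 1))⁻¹ := rfl
lemma ME_01 (p : R2) : ME.g 0 1 p = 0 := rfl
lemma ME_10 (p : R2) : ME.g 1 0 p = 0 := rfl
lemma ME_11 (p : R2) : ME.g 1 1 p = qf (p 1) := rfl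

lemma ME_density (p : R2) : density ME p = 1 := by
  unfold density
  rw [ME_00, ME_01, ME_10, ME_11]
  rw [inv_mul_cancel₀ (qf_ne _)]
  simp

lemma hasFDerivAt_comp_snd {f : ℝ → ℝ} {f' : ℝ} {p : R2} (hf : HasDerivAt f f' (p 1)) :
    HasFDerivAt (fun r : R2 => f (r 1))
      (f' • (ContinuousLinearMap.proj 1 : R2 →L[ℝ] ℝ)) p := by
  have h1 : HasFDerivAt (fun r : R2 => r 1) (ContinuousLinearMap.proj 1 : R2 →L[ℝ] ℝ) p :=
    (ContinuousLinearMap.proj (R := ℝ) (φ := fun _ : Fin 2 => ℝ) 1).hasFDerivAt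
  exact hf.comp_hasFDerivAt p h1

lemma pd_comp_snd_zero {f : ℝ → ℝ} {f' : ℝ} {p : R2} (hf : HasDerivAt f f' (p 1)) :
    pd 0 (fun r : R2 => f (r 1)) p = 0 := by
  unfold pd
  rw [(hasFDerivAt_comp_snd hf).fderiv]
  simp

lemma pd_comp_snd_one {f : ℝ → ℝ} {f' : ℝ} {p : R2} (hf : HasDerivAt f f' (p 1)) :
    pd 1 (fun r : R2 => f (r 1)) p = f' := by
  unfold pd
  rw [(hasFDerivAt_comp_snd hf).fderiv]
  simp

lemma pd_const {i : Fin 2} {c : ℝ} {p : R2} : pd i (fun _ => c) p = 0 := by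
  unfold pd
  simp

lemma pd0_g (i j : Fin 2) (p : R2) : pd 0 (ME.g i j) p = 0 := by
  fin_cases i <;> fin_cases j
  · exact pd_comp_snd_zero (hasDerivAt_inv_qf (p 1))
  · exact pd_const
  · exact pd_const
  · exact pd_comp_snd_zero (hasDerivAt_qf (p 1))

lemma pd1_g00 (p : R2) : pd 1 (ME.g 0 0) p = Real.sin (p 1) / qf (p 1) ^ 2 :=
  pd_comp_snd_one (hasDerivAt_inv_qf (p 1))

lemma pd1_g01 (p : R2) : pd 1 (ME.g 0 1) p = 0 := pd_const
lemma pd1_g10 (p : R2) : pd 1 (ME.g 1 0) p = 0 := pd_const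

lemma pd1_g11 (p : R2) : pd 1 (ME.g 1 1) p = - Real.sin (p 1) :=
  pd_comp_snd_one (hasDerivAt_qf (p 1))

/-- The steady velocity field `u = (2 + cos y)(1 - cos y / 4) ∂ₓ`. -/
noncomputable def uE : ℝ → R2 → R2 := fun _ p => ![Uf (p 1), 0]

/-- Its flow. -/
noncomputable def ηE : ℝ → R2 → R2 := fun t p => ![p 0 + t * Uf (p 1), p 1]

lemma uE_0 (t : ℝ) (p : R2) : uE t p 0 = Uf (p 1) := rfl
lemma uE_1 (t : ℝ) (p : R2) : uE t p 1 = 0 := rfl
lemma ηE_0 (t : ℝ) (p : R2) : ηE t p 0 = p 0 + t * Uf (p 1) := rfl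
lemma ηE_1 (t : ℝ) (p : R2) : ηE t p 1 = p 1 := rfl

lemma cov_u_0 (t : ℝ) (z : R2 → R2) (p : R2) :
    cov ME (uE t) z 0 p = (qf (p 1))⁻¹ * Uf (p 1) * pd 0 (fun r => z r 0) p
      + (1 / 2) * (Real.sin (p 1) / qf (p 1) ^ 2) * Uf (p 1) * z p 1 := by
  unfold cov
  simp only [Fin.sum_univ_two, uE_0, uE_1, pd0_g, pd1_g00, pd1_g01, pd1_g10, pd1_g11, ME_00,
    ME_01, ME_10, ME_11]
  ring

lemma cov_u_1 (t : ℝ) (z : R2 → R2) (p : R2) :
    cov ME (uE t) z 1 p = qf (p 1) * Uf (p 1) * pd 0 (fun r => z r 1) p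
      - (1 / 2) * (Real.sin (p 1) / qf (p 1) ^ 2) * Uf (p 1) * z p 0 := by
  unfold cov
  simp only [Fin.sum_univ_two, uE_0, uE_1, pd0_g, pd1_g00, pd1_g01, pd1_g10, pd1_g11, ME_00,
    ME_01, ME_10, ME_11]
  ring

lemma pd_uE_00 (t : ℝ) (p : R2) : pd 0 (fun r => uE t r 0) p = 0 :=
  pd_comp_snd_zero (hasDerivAt_Uf (p 1))
lemma pd_uE_10 (t : ℝ) (p : R2) : pd 1 (fun r => uE t r 0) p = dUf (p 1) :=
  pd_comp_snd_one (hasDerivAt_Uf (p 1))
lemma pd_uE_1 (i : Fin 2) (t : ℝ) (p : R2) : pd i (fun r => uE t r 1) p = 0 := pd_const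

lemma pd0_Uf (p : R2) : pd 0 (fun r : R2 => Uf (r 1)) p = 0 :=
  pd_comp_snd_zero (hasDerivAt_Uf (p 1))
lemma pd1_Uf (p : R2) : pd 1 (fun r : R2 => Uf (r 1)) p = dUf (p 1) :=
  pd_comp_snd_one (hasDerivAt_Uf (p 1))

lemma cov_z_0 (t : ℝ) (z : R2 → R2) (p : R2) :
    cov ME z (uE t) 0 p = (qf (p 1))⁻¹ * dUf (p 1) * z p 1
      + (1 / 2) * (Real.sin (p 1) / qf (p 1) ^ 2) * Uf (p 1) * z p 1 := by
  unfold cov
  simp only [Fin.sum_univ_two, uE_0, uE_1, pd0_g, pd1_g00, pd1_g01, pd1_g10, pd1_g11, ME_00,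
    ME_01, ME_10, ME_11, pd0_Uf, pd1_Uf, pd_const]
  ring

lemma cov_z_1 (t : ℝ) (z : R2 → R2) (p : R2) :
    cov ME z (uE t) 1 p =
      - (1 / 2) * (Real.sin (p 1) / qf (p 1) ^ 2) * Uf (p 1) * z p 0 := by
  unfold cov
  simp only [Fin.sum_univ_two, uE_0, uE_1, pd0_g, pd1_g00, pd1_g01, pd1_g10, pd1_g11, ME_00,
    ME_01, ME_10, ME_11, pd0_Uf, pd1_Uf, pd_const]
  ring

end Pool.Agent.H.MP_2725b4_gt
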