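import Pool.Agent.H.MP_2725b4_gt.Upper

set_option autoImplicit false

open MeasureTheory Set

namespace Pool.Agent.H.MP_2725b4_gt

/-- The initial velocity of a Jacobi field vanishing at times `0` and `T ≤ 8π` is a constant
multiple of `∂_y`, and it is zero if `T < 8π`. -/
theorem kernel_flat {zx zy ξx ξy : ℝ × ℝ × ℝ → ℝ} {T : ℝ} (h : Flat zx zy ξx ξy)
    (hT : 0 < T) (hT8 : T ≤ 8 * Real.pi)
    (ex : ∀ x y, ξx (T, x, y) = 0) (ey : ∀ x y, ξy (T, x, y) = 0) :
    (∀ x y, zx (0, x, y) = 0) ∧ (∀ x y, zy (0, x, y) = zy (0, 0, 0)) ∧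
      (T < 8 * Real.pi → zy (0, 0, 0) = 0) := by
  have hind := fun d => x_independent h hT hT8 ex ey d
  have k1 : ∀ t, 0 ≤ t → t ≤ T → ∀ x x' y, zx (t, x, y) = zx (t, x', y) := fun t h1 h2 x x' y =>
    const_of_sh_zero (fun d x y => (hind d t x y h1 h2).1) x x' y
  have k2 : ∀ t, 0 ≤ t → t ≤ T → ∀ x x' y, zy (t, x, y) = zy (t, x', y) := fun t h1 h2 x x' y =>
    const_of_sh_zero (fun d x y => (hind d t x y h1 h2).2.1) x x' y
  have k3 : ∀ t, 0 ≤ t → t ≤ T → ∀ x x' y, ξx (t, x, y) = ξx (t, x', y) := fun t h1 h2 x x' y =>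
    const_of_sh_zero (fun d x y => (hind d t x y h1 h2).2.2.1) x x' y
  have k4 : ∀ t, 0 ≤ t → t ≤ T → ∀ x x' y, ξy (t, x, y) = ξy (t, x', y) := fun t h1 h2 x x' y =>
    const_of_sh_zero (fun d x y => (hind d t x y h1 h2).2.2.2) x x' y
  -- x-derivatives vanish
  have dx0 : ∀ (F : ℝ × ℝ × ℝ → ℝ), ContDiff ℝ 1 F → ∀ t, (∀ x x' y, F (t, x, y) = F (t, x', y)) →
      ∀ x y, Dx F (t, x, y) = 0 := by
    intro F hF t hc x y
    have h1 := hasDerivAt_Dx hF t x y
    have h2 : (fun s => F (t, s, y)) = fun _ => F (t, 0, y) := by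
      funext s; exact hc s 0 y
    rw [h2] at h1
    exact h1.unique (hasDerivAt_const x _)
  -- zy and ξy are constant in y
  have yconst : ∀ (F G : ℝ × ℝ × ℝ → ℝ), ContDiff ℝ 1 F → ContDiff ℝ 1 G →
      (∀ p, Dx F p + Dy G p = 0) → ∀ t, (∀ x x' y, F (t, x, y) = F (t, x', y)) →
      (∀ x x' y, G (t, x, y) = G (t, x', y)) → ∀ x y, G (t, x, y) = G (t, 0, 0) := by
    intro F G hF hG hdiv t hc hc' x y
    have h1 : ∀ s, HasDerivAt (fun s => G (t, x, s)) 0 s := by
      intro s
      refine (hasDerivAt_Dy hG t x s).congr_deriv ?_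
      have := hdiv (t, x, s)
      rw [dx0 F hF t hc x s] at this
      linarith
    have h2 := is_const_of_deriv_eq_zero (f := fun s => G (t, x, s))
      (fun s => (h1 s).differentiableAt) (fun s => (h1 s).deriv) y 0
    rw [h2]
    exact hc' x 0 0
  set B : ℝ → ℝ := fun t => zy (t, 0, 0) with hBdef
  set b : ℝ → ℝ := fun t => ξy (t, 0, 0) with hbdef
  have zyB : ∀ t, 0 ≤ t → t ≤ T → ∀ x y, zy (t, x, y) = B t := fun t h1 h2 =>
    yconst zx zy h.c_zx h.c_zy h.div_z t (k1 t h1 h2) (k2 t h1 h2)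
  have ξyb : ∀ t, 0 ≤ t → t ≤ T → ∀ x y, ξy (t, x, y) = b t := fun t h1 h2 =>
    yconst ξx ξy h.c_ξx h.c_ξy h.div_ξ t (k3 t h1 h2) (k4 t h1 h2)
  -- b' = B
  have hb : ∀ t ∈ Icc 0 T, HasDerivAt b (B t) t := by
    intro t ht
    refine (hasDerivAt_Dt h.c_ξy t 0 0).congr_deriv ?_
    have := h.flow_y (t, 0, 0)
    rw [dx0 ξy h.c_ξy t (k4 t ht.1 ht.2) 0 0, mul_zero, add_zero] at this
    exact this
  -- ∂ₜ ξx
  have hξx : ∀ t ∈ Icc 0 T, ∀ y, HasDerivAt (fun s => ξx (s, 0, y))
      (zx (t, 0, y) + dUf y * b t) t := by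
    intro t ht y
    refine (hasDerivAt_Dt h.c_ξx t 0 y).congr_deriv ?_
    have := h.flow_x (t, 0, y)
    rw [dx0 ξx h.c_ξx t (k3 t ht.1 ht.2) 0 y, mul_zero, add_zero] at this
    rw [this]
    simp only
    rw [ξyb t ht.1 ht.2 0 y]
  -- time derivatives at interior times
  have dt_x : ∀ (F : ℝ × ℝ × ℝ → ℝ), ContDiff ℝ 1 F →
      (∀ t, 0 ≤ t → t ≤ T → ∀ x x' y, F (t, x, y) = F (t, x', y)) →
      ∀ t ∈ Ioo 0 T, ∀ x x' y, Dt F (t, x, y) = Dt F (t, x', y) := by
    intro F hF hc t ht x x' y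
    have h1 := hasDerivAt_Dt hF t x y
    have h2 := hasDerivAt_Dt hF t x' y
    have h3 : (fun s => F (s, x, y)) =ᶠ[nhds t] fun s => F (s, x', y) := by
      filter_upwards [Ioo_mem_nhds ht.1 ht.2] with s hs
      exact hc s hs.1.le hs.2.le x x' y
    exact h1.unique (h2.congr_of_eventuallyEq h3)
  have dt_zy : ∀ t ∈ Ioo 0 T, ∀ x y, Dt zy (t, x, y) = Dt zy (t, 0, 0) := by
    intro t ht x y
    have h1 := hasDerivAt_Dt h.c_zy t x y
    have h2 := hasDerivAt_Dt h.c_zy t 0 0
    have h3 : (fun s => zy (s, x, y)) =ᶠ[nhds t] fun s => zy (s, 0, 0) := by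
      filter_upwards [Ioo_mem_nhds ht.1 ht.2] with s hs
      exact zyB s hs.1.le hs.2.le x y
    exact h1.unique (h2.congr_of_eventuallyEq h3)
  obtain ⟨P, hPc, hPper, hPx, hPy⟩ := h.euler
  -- x-momentum
  have hzx : ∀ t ∈ Ioo 0 T, ∀ y, Dt zx (t, 0, y) = -(qf y * (Real.sin y / 4) * B t) := by
    intro t ht y
    have ht' : t ∈ Icc 0 T := Ioo_subset_Icc_self ht
    set κ := Ef y * Dt zx (t, 0, y) + Real.sin y / 4 * B t with hκ
    have h1 : ∀ x, HasDerivAt (fun s => P t (s, y) + κ * s) 0 x := by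
      intro x
      have h2 := (hPx t x y).add ((hasDerivAt_id x).const_mul κ)
      refine HasDerivAt.congr_deriv h2 ?_
      rw [dx0 zx h.c_zx t (k1 t ht'.1 ht'.2) x y, zyB t ht'.1 ht'.2 x y,
        dt_x zx h.c_zx k1 t ht x 0 y, hκ]
      ring
    have h2 := is_const_of_deriv_eq_zero (f := fun s => P t (s, y) + κ * s)
      (fun s => (h1 s).differentiableAt) (fun s => (h1 s).deriv) (0 + 1 / 16) 0
    rw [(hPper t 0 y).1] at h2
    have h3 : κ = 0 := by linarith
    rw [hκ] at h3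
    have h4 : Ef y * qf y = 1 := inv_mul_cancel₀ (qf_ne y)
    linear_combination (qf y) * h3 - Dt zx (t, 0, y) * h4
  -- conservation of momentum
  have cons : ∀ t ∈ Icc 0 T, ∀ y,
      zx (t, 0, y) = zx (0, 0, y) - qf y * (Real.sin y / 4) * b t := by
    intro t ht y
    have hb0 : b 0 = 0 := h.start_y 0 0
    have h1 := eqOn_of_deriv_zero (f := fun s => zx (s, 0, y) + qf y * (Real.sin y / 4) * b s)
      hT.le ?_ ?_ t ht
    · simp only [hb0, mul_zero, add_zero] at h1
      linarith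
    · have c1 : Continuous fun s => zx (s, 0, y) := h.c_zx.continuous.comp (by fun_prop)
      have c2 : ContinuousOn b (Icc 0 T) :=
        fun s hs => (hb s hs).continuousAt.continuousWithinAt
      exact c1.continuousOn.add (continuousOn_const.mul c2)
    · intro s hs
      have h2 := (hasDerivAt_Dt h.c_zx s 0 y).add
        ((hb s (Ioo_subset_Icc_self hs)).const_mul (qf y * (Real.sin y / 4)))
      refine HasDerivAt.congr_deriv h2 ?_
      rw [hzx s hs y]
      ring
  -- primitive of b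
  have cb : Continuous b := h.c_ξy.continuous.comp (by fun_prop)
  have cB : Continuous B := h.c_zy.continuous.comp (by fun_prop)
  set S : ℝ → ℝ := fun t => ∫ s in (0 : ℝ)..t, b s with hS
  have hSd : ∀ t, HasDerivAt S (b t) t := fun t =>
    intervalIntegral.integral_hasDerivAt_right (cb.intervalIntegrable _ _)
      (cb.stronglyMeasurableAtFilter _ _) cb.continuousAt
  have hS0 : S 0 = 0 := by simp [hS]
  have hc0 : ∀ y, zx (0, 0, y) * T = Real.sin y * mf y * S T := by
    intro y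
    have h1 := eqOn_of_deriv_zero
      (f := fun s => ξx (s, 0, y) - (zx (0, 0, y) * s - Real.sin y * mf y * S s))
      hT.le ?_ ?_ T ⟨hT.le, le_rfl⟩
    · simp only [hS0, h.start_x 0 y, ex 0 y] at h1
      linarith
    · intro s hs
      have h3 : HasDerivAt (fun s => ξx (s, 0, y) - (zx (0, 0, y) * s - Real.sin y * mf y * S s))
          _ s := (hξx s hs y).sub
        (((hasDerivAt_id s).const_mul (zx (0, 0, y))).sub ((hSd s).const_mul _))
      exact h3.continuousAt.continuousWithinAt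
    · intro s hs
      have hs' : s ∈ Icc 0 T := Ioo_subset_Icc_self hs
      have h3 : HasDerivAt (fun s => ξx (s, 0, y) - (zx (0, 0, y) * s - Real.sin y * mf y * S s))
          _ s := (hξx s hs' y).sub
        (((hasDerivAt_id s).const_mul (zx (0, 0, y))).sub ((hSd s).const_mul _))
      refine h3.congr_deriv ?_
      rw [cons s hs' y]
      unfold dUf
      ring
  set m0 := S T / T with hm0
  have hc0' : ∀ y, zx (0, 0, y) = Real.sin y * mf y * m0 := by
    intro y
    rw [hm0]
    field_simp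
    linarith [hc0 y]
  -- y-momentum
  have hBeq : ∀ t ∈ Ioo 0 T, Dt zy (t, 0, 0) = -(1 / 16) * b t + Dc / (4 * Real.pi) * m0 := by
    intro t ht
    have ht' : t ∈ Icc 0 T := Ioo_subset_Icc_self ht
    have c1 := continuous_mf
    have c2 := continuous_Ef
    have c3 := continuous_qf
    have h1 : ∀ y, HasDerivAt (fun s => P t (0, s))
        (-(Dt zy (t, 0, 0) * qf y) + (m0 * (Real.sin y ^ 2 * mf y ^ 2 * Ef y)
          - b t / 4 * (Real.sin y ^ 2 * mf y))) y := by
      intro y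
      refine (hPy t 0 y).congr_deriv ?_
      rw [dx0 zy h.c_zy t (k2 t ht'.1 ht'.2) 0 y, dt_zy t ht 0 y, cons t ht' y, hc0' y]
      unfold Uf Ef
      have := qf_ne y
      field_simp
      ring
    have h2 : ∫ y in (0 : ℝ)..(2 * Real.pi), (-(Dt zy (t, 0, 0) * qf y)
        + (m0 * (Real.sin y ^ 2 * mf y ^ 2 * Ef y) - b t / 4 * (Real.sin y ^ 2 * mf y))) = 0 := by
      rw [intervalIntegral.integral_eq_sub_of_hasDerivAt (fun y _ => h1 y)
        (Continuous.intervalIntegrable (by fun_prop) _ _)]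
      have := (hPper t 0 0).2
      rw [zero_add] at this
      rw [this, sub_self]
    rw [intervalIntegral.integral_add (Continuous.intervalIntegrable (by fun_prop) _ _)
      (Continuous.intervalIntegrable (by fun_prop) _ _), intervalIntegral.integral_neg,
      intervalIntegral.integral_const_mul,
      intervalIntegral.integral_sub (Continuous.intervalIntegrable (by fun_prop) _ _)
      (Continuous.intervalIntegrable (by fun_prop) _ _), intervalIntegral.integral_const_mul,
      intervalIntegral.integral_const_mul, integral_qf, integral_sin_sq_mul_mf] at h2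
    have h3 : ∫ y in (0 : ℝ)..(2 * Real.pi), Real.sin y ^ 2 * mf y ^ 2 * Ef y = Dc := rfl
    rw [h3] at h2
    have hpi := Real.pi_pos
    field_simp
    linarith
  -- solve the ODE
  have hb0 : b 0 = 0 := h.start_y 0 0
  set K := Dc / (4 * Real.pi) * m0 with hK
  have hBd : ∀ t ∈ Ioo 0 T, HasDerivAt B (Dt zy (t, 0, 0)) t := fun t _ =>
    hasDerivAt_Dt h.c_zy t 0 0
  have sol := ode_solution (B' := fun t => Dt zy (t, 0, 0)) hT.le hb cB hBd hBeq hb0
  have hpi := Real.pi_pos
  have e1 : 16 * K * (1 - Real.cos (T / 4)) + 4 * B 0 * Real.sin (T / 4) = 0 := by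
    rw [← sol T ⟨hT.le, le_rfl⟩]
    exact ey 0 0
  -- integral of b
  have hSint : S T = 16 * K * (T - 4 * Real.sin (T / 4))
      + 16 * B 0 * (1 - Real.cos (T / 4)) := by
    have s4 : ∀ t, HasDerivAt (fun t => Real.sin (t / 4)) (Real.cos (t / 4) / 4) t := by
      intro t
      have h : HasDerivAt (fun t : ℝ => t / 4) (1 / 4) t := (hasDerivAt_id t).div_const 4
      exact (h.sin).congr_deriv (by ring)
    have c4 : ∀ t, HasDerivAt (fun t => Real.cos (t / 4)) (-Real.sin (t / 4) / 4) t := by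
      intro t
      have h : HasDerivAt (fun t : ℝ => t / 4) (1 / 4) t := (hasDerivAt_id t).div_const 4
      exact (h.cos).congr_deriv (by ring)
    have h1 := eqOn_of_deriv_zero (f := fun s => S s - (16 * K * (s - 4 * Real.sin (s / 4))
      + 16 * B 0 * (1 - Real.cos (s / 4)))) hT.le ?_ ?_ T ⟨hT.le, le_rfl⟩
    · simp only [hS0, zero_div, Real.sin_zero, Real.cos_zero, mul_zero, sub_self,
        add_zero] at h1
      linarith
    · intro s hs
      have h3 := (hSd s).sub ((((hasDerivAt_id s).sub ((s4 s).const_mul 4)).const_mul (16 * K)).add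
        (((c4 s).const_sub 1).const_mul (16 * B 0)))
      exact h3.continuousAt.continuousWithinAt
    · intro s hs
      have h3 := (hSd s).sub ((((hasDerivAt_id s).sub ((s4 s).const_mul 4)).const_mul (16 * K)).add
        (((c4 s).const_sub 1).const_mul (16 * B 0)))
      refine HasDerivAt.congr_deriv h3 ?_
      rw [sol s (Ioo_subset_Icc_self hs)]
      ring
  have hD : 0 < Dc := lt_of_lt_of_le (by positivity) Dc_ge
  have hm0K : S T = T * (16 * K) * (Real.pi / (4 * Dc)) := by
    rw [hK, hm0]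
    field_simp
    ring
  have e2 : 16 * K * (T / 4 - Real.sin (T / 4)) + 4 * B 0 * (1 - Real.cos (T / 4))
      = T / 4 * (16 * K) * (Real.pi / (4 * Dc)) := by
    rw [hm0K] at hSint
    linarith
  have hr : Real.pi / (4 * Dc) < 1 := by
    rw [div_lt_one (by positivity)]
    linarith [Dc_ge]
  obtain ⟨f1, f2⟩ := final_algebra (c := 16 * K) (A := 4 * B 0) (θ := T / 4)
    (r := Real.pi / (4 * Dc)) (by positivity) (by linarith) hr (by positivity) e1 e2
  have hm00 : m0 = 0 := by
    have : S T = 0 := by rw [hm0K, f1]; ring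
    rw [hm0, this, zero_div]
  refine ⟨?_, ?_, ?_⟩
  · intro x y
    rw [k1 0 le_rfl hT.le x 0 y, hc0' y, hm00, mul_zero]
  · intro x y
    exact zyB 0 le_rfl hT.le x y
  · intro hlt
    have := f2 (by linarith)
    have h5 : B 0 = 0 := by linarith
    exact h5

end Pool.Agent.H.MP_2725b4_gt
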