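import Pool.Agent.H.MP_2725b4_gt.Lower
import Pool.Agent.H.MP_2725b4_gt.Convert
import Pool.Agent.H.MP_2725b4_gt.Mean

set_option autoImplicit false

namespace Pool.Agent.H.MP_2725b4_gt

/-- Every element of the kernel at a time `0 < t ≤ 8π` is a multiple of `∂_y`, and it is zero
if `t < 8π`. -/
lemma kernel_classification {s t : ℝ} (ht : 0 < t) (ht8 : t ≤ 8 * Real.pi) {w : R2 → R2}
    (hw : w ∈ dexpKer ME uE ηE s t) :
    ∃ c : ℝ, w = c • wE ∧ (t < 8 * Real.pi → c = 0) := by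
  obtain ⟨_, z, ξ, hJ, hz, hξ⟩ := hw
  obtain ⟨k1, k2, k3⟩ := kernel_flat (flat_of_jacobi hJ) ht ht8
    (fun x y => by show ξ t ![x, y] 0 = 0; rw [hξ]; rfl)
    (fun x y => by show ξ t ![x, y] 1 = 0; rw [hξ]; rfl)
  refine ⟨fl z 1 (0, 0, 0), ?_, k3⟩
  rw [← hz]
  funext p i
  have hp : p = ![p 0, p 1] := by
    funext j
    fin_cases j <;> rfl
  fin_cases i
  · have := k1 (p 0) (p 1)
    show z 0 p 0 = fl z 1 (0, 0, 0) * 0
    rw [mul_zero]
    rw [hp]
    exact this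
  · have := k2 (p 0) (p 1)
    show z 0 p 1 = fl z 1 (0, 0, 0) * 1
    rw [mul_one]
    rw [hp]
    exact this

lemma zero_mem_dexpKer (s t : ℝ) : (0 : R2 → R2) ∈ dexpKer ME uE ηE s t := by
  obtain ⟨w1, z, ξ, hJ, hz, _⟩ := wE_mem_ker s
  refine ⟨?_, _, _, hJ.smul 0, ?_, fun p => zero_smul ℝ _⟩
  · have := tangentSpace_smul w1 0
    rwa [zero_smul] at this
  · funext p
    exact zero_smul ℝ _

theorem kernel_before {s t : ℝ} (ht : 0 < t) (ht8 : t < 8 * Real.pi) :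
    dexpKer ME uE ηE s t = {0} := by
  apply Set.eq_singleton_iff_unique_mem.mpr
  refine ⟨zero_mem_dexpKer s t, fun w hw => ?_⟩
  obtain ⟨c, hc, hc0⟩ := kernel_classification ht ht8.le hw
  rw [hc, hc0 ht8, zero_smul]

theorem kernel_at (s : ℝ) :
    dexpKer ME uE ηE s (8 * Real.pi) = {v | ∃ c : ℝ, v = c • wE} := by
  ext w
  constructor
  · intro hw
    obtain ⟨c, hc, _⟩ := kernel_classification (by positivity) le_rfl hw
    exact ⟨c, hc⟩
  · rintro ⟨c, rfl⟩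
    exact dexpKer_smul (wE_mem_ker s) c

end Pool.Agent.H.MP_2725b4_gt
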