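import Pool.Agent.H.MP_2725b4_gt.Example

set_option autoImplicit false
set_option linter.unusedSimpArgs false

open scoped ContDiff

namespace Pool.Agent.H.MP_2725b4_gt

lemma qf_per (y : ℝ) : qf (y + 2 * Real.pi) = qf y := by simp [qf]
lemma mf_per (y : ℝ) : mf (y + 2 * Real.pi) = mf y := by simp [mf]
lemma Uf_per (y : ℝ) : Uf (y + 2 * Real.pi) = Uf y := by simp [Uf, qf_per, mf_per]
lemma dUf_per (y : ℝ) : dUf (y + 2 * Real.pi) = dUf y := by simp [dUf, qf_per, mf_per]

lemma ηE_inv (t : ℝ) (p : R2) : ηE (-t) (ηE t p) = p := by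
  funext i
  fin_cases i
  · show p 0 + t * Uf (p 1) + (-t) * Uf (p 1) = p 0
    ring
  · rfl

lemma ηE_inv' (t : ℝ) (p : R2) : ηE t (ηE (-t) p) = p := by
  have := ηE_inv (-t) p
  simpa using this

lemma pd_ηE_00 (t : ℝ) (p : R2) : pd 0 (fun r => ηE t r 0) p = 1 := by
  have h1 : HasFDerivAt (fun r : R2 => r 0) (ContinuousLinearMap.proj 0 : R2 →L[ℝ] ℝ) p :=
    (ContinuousLinearMap.proj (R := ℝ) (φ := fun _ : Fin 2 => ℝ) 0).hasFDerivAt
  have h2 := h1.add ((hasFDerivAt_comp_snd (hasDerivAt_Uf (p 1))).const_mul t)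
  have h3 : HasFDerivAt (fun r => ηE t r 0) _ p := h2
  unfold pd
  rw [h3.fderiv]
  simp

lemma pd_ηE_10 (t : ℝ) (p : R2) : pd 1 (fun r => ηE t r 0) p = t * dUf (p 1) := by
  have h1 : HasFDerivAt (fun r : R2 => r 0) (ContinuousLinearMap.proj 0 : R2 →L[ℝ] ℝ) p :=
    (ContinuousLinearMap.proj (R := ℝ) (φ := fun _ : Fin 2 => ℝ) 0).hasFDerivAt
  have h2 := h1.add ((hasFDerivAt_comp_snd (hasDerivAt_Uf (p 1))).const_mul t)
  have h3 : HasFDerivAt (fun r => ηE t r 0) _ p := h2
  unfold pd
  rw [h3.fderiv]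
  simp

lemma pd_ηE_01 (t : ℝ) (p : R2) : pd 0 (fun r => ηE t r 1) p = 0 :=
  pd_comp_snd_zero (hasDerivAt_id (p 1))

lemma pd_ηE_11 (t : ℝ) (p : R2) : pd 1 (fun r => ηE t r 1) p = 1 :=
  pd_comp_snd_one (hasDerivAt_id (p 1))

lemma hasDerivAt_pressure (y : ℝ) :
    HasDerivAt (fun y => 2 / 3 * mf y ^ 3) (1 / 2 * mf y ^ 2 * Real.sin y) y := by
  have h := ((hasDerivAt_mf y).pow 3).const_mul (2 / 3)
  refine HasDerivAt.congr_deriv h ?_
  push_cast
  ring

theorem isGeodesic_E : IsGeodesic ME uE ηE where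
  smooth_u := by
    rw [contDiff_pi]
    intro i
    fin_cases i
    · exact contDiff_Uf.comp (contDiff_snd.comp _root_.contDiff_snd)
    · exact contDiff_const
  smooth_η := by
    rw [contDiff_pi]
    intro i
    fin_cases i
    · exact (contDiff_fst.comp _root_.contDiff_snd).add
        (_root_.contDiff_fst.mul (contDiff_Uf.comp (contDiff_snd.comp _root_.contDiff_snd)))
    · show ContDiff ℝ ∞ (fun q : ℝ × R2 => q.2 1)
      exact contDiff_snd.comp _root_.contDiff_snd
  per_u := by
    intro t x y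
    constructor
    · rfl
    · unfold uE
      simp [Uf_per]
  equivariant_η := by
    intro t x y
    constructor
    · funext i
      fin_cases i
      · simp [ηE]; ring
      · simp [ηE]
    · funext i
      fin_cases i
      · simp [ηE, Uf_per]
      · simp [ηE]
  bijective_η := by
    intro t
    refine Function.bijective_iff_has_inverse.mpr ⟨ηE (-t), ηE_inv t, ηE_inv' t⟩
  area_η := by
    intro t p
    rw [ME_density, ME_density, pd_ηE_00, pd_ηE_01, pd_ηE_10, pd_ηE_11]
    ring
  div_u := by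
    intro t p
    have e : ∀ i, (fun r => density ME r * uE t r i) = fun r => uE t r i := by
      intro i
      funext r
      rw [ME_density, one_mul]
    simp only [Fin.sum_univ_two, e]
    rw [pd_uE_00, pd_uE_1]
    ring
  start := by
    intro p
    funext i
    fin_cases i
    · simp [ηE]
    · simp [ηE]
  flow := by
    intro t p
    rw [hasDerivAt_pi]
    intro i
    fin_cases i
    · show HasDerivAt (fun s => p 0 + s * Uf (p 1)) (Uf (p 1)) t
      simpa using ((hasDerivAt_id t).mul_const (Uf (p 1))).const_add (p 0)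
    · show HasDerivAt (fun s => p 1) 0 t
      exact hasDerivAt_const _ _
  euler := by
    refine ⟨fun _ p => 2 / 3 * mf (p 1) ^ 3, fun t => ?_, fun t x y => ?_, fun t p k => ?_⟩
    · exact contDiff_const.mul ((contDiff_mf.comp contDiff_snd).pow 3)
    · constructor
      · rfl
      · simp [mf_per]
    · have hd : ∀ l, deriv (fun s => uE s p l) t = 0 := by
        intro l
        have : (fun s => uE s p l) = fun _ => uE t p l := by
          funext s; rfl
        rw [this]
        simp
      simp only [hd, mul_zero, Finset.sum_const_zero, zero_add]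
      have hq := qf_ne (p 1)
      fin_cases k
      · show cov ME (uE t) (uE t) 0 p = - pd 0 (fun r : R2 => 2 / 3 * mf (r 1) ^ 3) p
        rw [cov_u_0, pd_comp_snd_zero (hasDerivAt_pressure (p 1)), pd_uE_00, uE_1]
        ring
      · show cov ME (uE t) (uE t) 1 p = - pd 1 (fun r : R2 => 2 / 3 * mf (r 1) ^ 3) p
        rw [cov_u_1, pd_comp_snd_one (hasDerivAt_pressure (p 1)), pd_uE_1, uE_0]
        unfold Uf
        field_simp
        ring

end Pool.Agent.H.MP_2725b4_gt
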