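import Pool.Agent.H.MP_2725b4_gt.Box
import Pool.Agent.H.MP_2725b4_gt.Geodesic

set_option autoImplicit false

open MeasureTheory Set

namespace Pool.Agent.H.MP_2725b4_gt

/-- periodicity for functions of `(t, x, y)` -/
def Per3 (f : ℝ × ℝ × ℝ → ℝ) : Prop :=
  ∀ t x y, f (t, x + 1 / 16, y) = f (t, x, y) ∧ f (t, x, y + 2 * Real.pi) = f (t, x, y)

noncomputable def Ef (y : ℝ) : ℝ := (qf y)⁻¹

lemma Ef_pos (y : ℝ) : 0 < Ef y := inv_pos.mpr (qf_pos y)

lemma continuous_qf : Continuous qf := contDiff_qf.continuous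
lemma continuous_mf : Continuous mf := contDiff_mf.continuous
lemma continuous_Uf : Continuous Uf := contDiff_Uf.continuous
lemma continuous_Ef : Continuous Ef := contDiff_inv_qf.continuous
lemma continuous_dUf : Continuous dUf := by
  unfold dUf
  have := continuous_qf
  have := continuous_mf
  fun_prop

/-- The linearised equations, written out in the coordinates `(t, x, y)`. -/
structure Flat (zx zy ξx ξy : ℝ × ℝ × ℝ → ℝ) : Prop where
  c_zx : ContDiff ℝ 1 zx
  c_zy : ContDiff ℝ 1 zy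
  c_ξx : ContDiff ℝ 1 ξx
  c_ξy : ContDiff ℝ 1 ξy
  p_zx : Per3 zx
  p_zy : Per3 zy
  p_ξx : Per3 ξx
  p_ξy : Per3 ξy
  div_z : ∀ p, Dx zx p + Dy zy p = 0
  div_ξ : ∀ p, Dx ξx p + Dy ξy p = 0
  start_x : ∀ x y, ξx (0, x, y) = 0
  start_y : ∀ x y, ξy (0, x, y) = 0
  flow_x : ∀ p, Dt ξx p + Uf p.2.2 * Dx ξx p = zx p + dUf p.2.2 * ξy p
  flow_y : ∀ p, Dt ξy p + Uf p.2.2 * Dx ξy p = zy p
  euler : ∃ P : ℝ → ℝ × ℝ → ℝ, (∀ t, Continuous (P t)) ∧
    (∀ t x y, P t (x + 1 / 16, y) = P t (x, y) ∧ P t (x, y + 2 * Real.pi) = P t (x, y)) ∧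
    (∀ t x y, HasDerivAt (fun s => P t (s, y))
      (-(Ef y * (Dt zx (t, x, y) + Uf y * Dx zx (t, x, y)) + Real.sin y / 4 * zy (t, x, y))) x) ∧
    (∀ t x y, HasDerivAt (fun s => P t (x, s))
      (-(qf y * (Dt zy (t, x, y) + Uf y * Dx zy (t, x, y))
        - Real.sin y * Ef y ^ 2 * Uf y * zx (t, x, y))) y)

lemma integral_bx_nonneg_of_slices {f : ℝ × ℝ × ℝ → ℝ} (hf : Continuous f) {T a b : ℝ}
    (h : ∀ t y, 0 ≤ ∫ x in Ioc 0 a, f (t, x, y)) : 0 ≤ ∫ p in bx T a b, f p := by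
  rw [integral_bx_eq hf]
  apply integral_nonneg
  intro t
  show 0 ≤ ∫ q in cell a b, f (t, q)
  rw [integral_cell_eq' (f := fun q => f (t, q)) (hf.comp (Continuous.prodMk_right t))]
  apply integral_nonneg
  intro y
  exact h t y

/-- Cauchy-Schwarz for a primitive. -/
lemma sq_integral_le {w : ℝ → ℝ} (hw : Continuous w) {a x : ℝ} (hx0 : 0 ≤ x) (hxa : x ≤ a) :
    (∫ s in (0 : ℝ)..x, w s) ^ 2 ≤ a * ∫ s in (0 : ℝ)..a, w s ^ 2 := by
  set A := ∫ s in (0 : ℝ)..x, w s with hA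
  have hmono : ∫ s in (0 : ℝ)..x, w s ^ 2 ≤ ∫ s in (0 : ℝ)..a, w s ^ 2 := by
    apply intervalIntegral.integral_mono_interval le_rfl hx0 hxa
    · exact Filter.Eventually.of_forall (fun s => sq_nonneg (w s))
    · exact (hw.pow 2).intervalIntegrable _ _
  have hnn : 0 ≤ ∫ s in (0 : ℝ)..x, w s ^ 2 :=
    intervalIntegral.integral_nonneg hx0 (fun s _ => sq_nonneg (w s))
  rcases hx0.eq_or_lt with h0 | hpos
  · subst h0
    simp only [intervalIntegral.integral_same] at hA hnn hmono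
    rw [hA]
    have : 0 ≤ a * ∫ s in (0 : ℝ)..a, w s ^ 2 := mul_nonneg hxa hmono
    simpa using this
  · have key : 0 ≤ ∫ s in (0 : ℝ)..x, (w s - A / x) ^ 2 :=
      intervalIntegral.integral_nonneg hx0 (fun s _ => sq_nonneg _)
    have e : ∫ s in (0 : ℝ)..x, (w s - A / x) ^ 2
        = (∫ s in (0 : ℝ)..x, w s ^ 2) - 2 * (A / x) * A + (A / x) ^ 2 * x := by
      have e1 : ∀ s, (w s - A / x) ^ 2 = w s ^ 2 - 2 * (A / x) * w s + (A / x) ^ 2 := by
        intro s; ring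
      simp only [e1]
      rw [intervalIntegral.integral_add, intervalIntegral.integral_sub,
        intervalIntegral.integral_const_mul, intervalIntegral.integral_const]
      · simp only [sub_zero, smul_eq_mul, ← hA]; ring
      · exact (hw.pow 2).intervalIntegrable _ _
      · exact (continuous_const.mul hw).intervalIntegrable _ _
      · exact ((hw.pow 2).sub (continuous_const.mul hw)).intervalIntegrable _ _
      · exact continuous_const.intervalIntegrable _ _
    rw [e] at key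
    have h2 : A ^ 2 ≤ x * ∫ s in (0 : ℝ)..x, w s ^ 2 := by
      have h3 : 0 ≤ x * ((∫ s in (0 : ℝ)..x, w s ^ 2) - 2 * (A / x) * A + (A / x) ^ 2 * x) :=
        mul_nonneg hx0 key
      have h4 : x * ((∫ s in (0 : ℝ)..x, w s ^ 2) - 2 * (A / x) * A + (A / x) ^ 2 * x)
          = x * (∫ s in (0 : ℝ)..x, w s ^ 2) - A ^ 2 := by
        field_simp
        ring
      linarith
    calc A ^ 2 ≤ x * ∫ s in (0 : ℝ)..x, w s ^ 2 := h2
      _ ≤ a * ∫ s in (0 : ℝ)..x, w s ^ 2 := by gcongr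
      _ ≤ a * ∫ s in (0 : ℝ)..a, w s ^ 2 := by
          have : 0 ≤ a := le_trans hx0 hxa
          gcongr

section energy

variable {zx zy ξx ξy ψ : ℝ × ℝ × ℝ → ℝ} {T : ℝ}

/-- the slice inequality (S3) -/
lemma slice_ineq (t y : ℝ) {lam : ℝ} (hl : 0 < lam)
    (cψ : Continuous ψ) (czy : Continuous zy) (cξy : Continuous ξy)
    (hψx : ∀ t x y, HasDerivAt (fun s => ψ (t, s, y)) (zy (t, x, y)) x)
    (mean : ∀ t y, ∫ x in (0 : ℝ)..(1 / 16), ξy (t, x, y) = 0) :
    0 ≤ ∫ x in Ioc 0 (1 / 16), (1 / 64 * (lam / 2 * zy (t, x, y) ^ 2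
      + 1 / (2 * lam) * ξy (t, x, y) ^ 2) + Real.cos y / 4 * ψ (t, x, y) * ξy (t, x, y)) := by
  rw [← intervalIntegral.integral_of_le (by norm_num)]
  set w : ℝ → ℝ := fun x => zy (t, x, y) with hw
  set v : ℝ → ℝ := fun x => ξy (t, x, y) with hv
  set g : ℝ → ℝ := fun x => ψ (t, x, y) with hg
  have cw : Continuous w := czy.comp (by fun_prop)
  have cv : Continuous v := cξy.comp (by fun_prop)
  have cg : Continuous g := cψ.comp (by fun_prop)
  have hgx : ∀ x, g x - g 0 = ∫ s in (0 : ℝ)..x, w s := by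
    intro x
    rw [intervalIntegral.integral_eq_sub_of_hasDerivAt (f := g) (fun s _ => hψx t s y)
      (cw.intervalIntegrable _ _)]
  set K := ∫ s in (0 : ℝ)..(1 / 16), w s ^ 2 with hK
  -- replace ψ by ψ - ψ(0)
  have e1 : ∫ x in (0 : ℝ)..(1 / 16), (1 / 64 * (lam / 2 * w x ^ 2 + 1 / (2 * lam) * v x ^ 2)
      + Real.cos y / 4 * g x * v x)
      = ∫ x in (0 : ℝ)..(1 / 16), (1 / 64 * (lam / 2 * w x ^ 2 + 1 / (2 * lam) * v x ^ 2)
      + Real.cos y / 4 * (g x - g 0) * v x) := by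
    have e2 : ∀ x, 1 / 64 * (lam / 2 * w x ^ 2 + 1 / (2 * lam) * v x ^ 2)
      + Real.cos y / 4 * g x * v x = (1 / 64 * (lam / 2 * w x ^ 2 + 1 / (2 * lam) * v x ^ 2)
      + Real.cos y / 4 * (g x - g 0) * v x) + Real.cos y / 4 * g 0 * v x := by
      intro x; ring
    simp only [e2]
    rw [intervalIntegral.integral_add, intervalIntegral.integral_const_mul, mean t y, mul_zero,
      add_zero]
    · apply Continuous.intervalIntegrable; fun_prop
    · apply Continuous.intervalIntegrable; fun_prop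
  have e3 : (∫ x in (0 : ℝ)..(1 / 16), (1 / 64 * (lam / 2 * zy (t, x, y) ^ 2
      + 1 / (2 * lam) * ξy (t, x, y) ^ 2) + Real.cos y / 4 * ψ (t, x, y) * ξy (t, x, y)))
      = ∫ x in (0 : ℝ)..(1 / 16), (1 / 64 * (lam / 2 * w x ^ 2 + 1 / (2 * lam) * v x ^ 2)
      + Real.cos y / 4 * g x * v x) := rfl
  rw [e3, e1]
  -- lower bound for the integrand
  have hlow : ∫ x in (0 : ℝ)..(1 / 16), (1 / 64 * (lam / 2 * w x ^ 2) - lam / 8 * K)
      ≤ ∫ x in (0 : ℝ)..(1 / 16), (1 / 64 * (lam / 2 * w x ^ 2 + 1 / (2 * lam) * v x ^ 2)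
      + Real.cos y / 4 * (g x - g 0) * v x) := by
    apply intervalIntegral.integral_mono_on (by norm_num)
    · apply Continuous.intervalIntegrable; fun_prop
    · apply Continuous.intervalIntegrable; fun_prop
    · intro x hx
      have h1 : (g x - g 0) ^ 2 ≤ 1 / 16 * K := by
        rw [hgx]; exact sq_integral_le cw hx.1 hx.2
      have h2 : |Real.cos y| ≤ 1 := Real.abs_cos_le_one y
      have h3 : -(|g x - g 0| * |v x|) ≤ Real.cos y * (g x - g 0) * v x := by
        have : |Real.cos y * (g x - g 0) * v x| ≤ |g x - g 0| * |v x| := by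
          rw [abs_mul, abs_mul]
          have : |Real.cos y| * |g x - g 0| ≤ |g x - g 0| := by
            nlinarith [abs_nonneg (g x - g 0)]
          exact mul_le_mul_of_nonneg_right this (abs_nonneg _)
        linarith [neg_abs_le (Real.cos y * (g x - g 0) * v x)]
      -- AM-GM : |g||v|/4 ≤ 2 lam g^2 + v^2 / (128 lam)
      have h4 : |g x - g 0| * |v x| / 4 ≤ 2 * lam * (g x - g 0) ^ 2 + 1 / (128 * lam) * v x ^ 2 := by
        have hs : 0 ≤ (16 * lam * |g x - g 0| - |v x|) ^ 2 / (128 * lam) := by positivity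
        have e5 : (16 * lam * |g x - g 0| - |v x|) ^ 2 / (128 * lam)
            = 2 * lam * (g x - g 0) ^ 2 - |g x - g 0| * |v x| / 4 + 1 / (128 * lam) * v x ^ 2 := by
          rw [← sq_abs (g x - g 0), ← sq_abs (v x)]
          field_simp
          ring
        linarith
      have h5 : 2 * lam * (g x - g 0) ^ 2 ≤ lam / 8 * K := by nlinarith
      have h6 : 1 / 64 * (1 / (2 * lam) * v x ^ 2) = 1 / (128 * lam) * v x ^ 2 := by
        field_simp; ring
      nlinarith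
  have e7 : ∫ x in (0 : ℝ)..(1 / 16), (1 / 64 * (lam / 2 * w x ^ 2) - lam / 8 * K) = 0 := by
    rw [intervalIntegral.integral_sub, intervalIntegral.integral_const_mul,
      intervalIntegral.integral_const_mul, intervalIntegral.integral_const, ← hK]
    · simp only [smul_eq_mul]; ring
    · apply Continuous.intervalIntegrable; fun_prop
    · apply Continuous.intervalIntegrable; fun_prop
  linarith

lemma I_add {f g : ℝ × ℝ × ℝ → ℝ} (hf : Continuous f) (hg : Continuous g) (T a b : ℝ) :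
    ∫ p in bx T a b, (f p + g p) = (∫ p in bx T a b, f p) + ∫ p in bx T a b, g p :=
  integral_add (integrableOn_bx hf T a b) (integrableOn_bx hg T a b)

lemma I_sub {f g : ℝ × ℝ × ℝ → ℝ} (hf : Continuous f) (hg : Continuous g) (T a b : ℝ) :
    ∫ p in bx T a b, (f p - g p) = (∫ p in bx T a b, f p) - ∫ p in bx T a b, g p :=
  integral_sub (integrableOn_bx hf T a b) (integrableOn_bx hg T a b)

lemma I_mono {f g : ℝ × ℝ × ℝ → ℝ} (hf : Continuous f) (hg : Continuous g) {T a b : ℝ}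
    (h : ∀ p ∈ bx T a b, f p ≤ g p) :
    ∫ p in bx T a b, f p ≤ ∫ p in bx T a b, g p :=
  setIntegral_mono_on (integrableOn_bx hf T a b) (integrableOn_bx hg T a b)
    (measurableSet_bx T a b) h

lemma two_pi_nonneg : (0 : ℝ) ≤ 2 * Real.pi := by positivity

/-- (S4): a transport estimate. If `(∂ₜ + U ∂ₓ) v = w` and `v` vanishes at time `T` then
`∫ v² ≤ 4 T² ∫ w²`. -/
lemma transport_estimate {v w : ℝ × ℝ × ℝ → ℝ} (cv : ContDiff ℝ 1 v) (cw : Continuous w)
    (pv : Per3 v) (hT : 0 < T) (hT1 : ∀ x y, v (T, x, y) = 0)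
    (hv : ∀ p, Dt v p + Uf p.2.2 * Dx v p = w p) :
    ∫ p in bx T (1 / 16) (2 * Real.pi), v p ^ 2
      ≤ 4 * T ^ 2 * ∫ p in bx T (1 / 16) (2 * Real.pi), w p ^ 2 := by
  have c0 := cv.continuous
  have c1 := continuous_Dt cv
  have c2 := continuous_Dx cv
  have cU := continuous_Uf
  have i1 : ∫ p in bx T (1 / 16) (2 * Real.pi),
      (v p ^ 2 + p.1 * (2 * v p * Dt v p)) = 0 := by
    apply integral_bx_dt (F := fun p => p.1 * v p ^ 2) (by fun_prop) hT.le
    · intro t x y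
      have h := (hasDerivAt_id t).mul ((hasDerivAt_Dt cv t x y).pow 2)
      refine HasDerivAt.congr_deriv h ?_
      simp
    · intro x y
      simp [hT1 x y]
  have i2 : ∫ p in bx T (1 / 16) (2 * Real.pi), (Uf p.2.2 * p.1 * (2 * v p * Dx v p)) = 0 := by
    apply integral_bx_dx (F := fun p => Uf p.2.2 * p.1 * v p ^ 2) (by fun_prop) (by norm_num)
    · intro t x y
      have h := ((hasDerivAt_Dx cv t x y).pow 2).const_mul (Uf y * t)
      refine HasDerivAt.congr_deriv h ?_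
      simp
    · intro t y
      have := (pv t 0 y).1
      rw [zero_add] at this
      simp only [this]
  have i3 : ∫ p in bx T (1 / 16) (2 * Real.pi), (v p ^ 2 + 2 * p.1 * v p * w p) = 0 := by
    have e : ∀ p : ℝ × ℝ × ℝ, v p ^ 2 + 2 * p.1 * v p * w p
        = (v p ^ 2 + p.1 * (2 * v p * Dt v p)) + Uf p.2.2 * p.1 * (2 * v p * Dx v p) := by
      intro p; rw [← hv p]; ring
    simp only [e]
    rw [I_add (by fun_prop) (by fun_prop), i1, i2, add_zero]
  have i4 : ∫ p in bx T (1 / 16) (2 * Real.pi), (1 / 2 * v p ^ 2 - 2 * T ^ 2 * w p ^ 2) ≤ 0 := by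
    rw [← i3]
    apply I_mono (by fun_prop) (by fun_prop)
    rintro ⟨t, x, y⟩ hp
    have ht0 : 0 < t := hp.1.1
    have htT : t ≤ T := hp.1.2
    simp only
    have h1 : t ^ 2 ≤ T ^ 2 := by nlinarith
    have h2 : 0 ≤ (T ^ 2 - t ^ 2) * w (t, x, y) ^ 2 := mul_nonneg (by linarith) (sq_nonneg _)
    nlinarith [sq_nonneg (v (t, x, y) + 2 * t * w (t, x, y))]
  rw [I_sub (by fun_prop) (by fun_prop)] at i4
  have e1 : ∫ p in bx T (1 / 16) (2 * Real.pi), 1 / 2 * v p ^ 2
      = 1 / 2 * ∫ p in bx T (1 / 16) (2 * Real.pi), v p ^ 2 := integral_const_mul _ _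
  have e2 : ∫ p in bx T (1 / 16) (2 * Real.pi), 2 * T ^ 2 * w p ^ 2
      = 2 * T ^ 2 * ∫ p in bx T (1 / 16) (2 * Real.pi), w p ^ 2 := integral_const_mul _ _
  rw [e1, e2] at i4
  linarith

end energy

end Pool.Agent.H.MP_2725b4_gt
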