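import Pool.Agent.H.MP_2725b4_gt.Defs

set_option autoImplicit false

open scoped ContDiff

namespace Pool.Agent.H.MP_2725b4_gt

/-- Shorthand used in the proofs. -/
abbrev R2 : Type := Fin 2 → ℝ

lemma pd_const_mul {i : Fin 2} {f : R2 → ℝ} {p : R2} (c : ℝ) (hf : DifferentiableAt ℝ f p) :
    pd i (fun r => c * f r) p = c * pd i f p := by
  unfold pd
  rw [fderiv_const_mul hf]; rfl

lemma pd_zero {i : Fin 2} {p : R2} : pd i (fun _ => (0 : ℝ)) p = 0 := by
  unfold pd
  simp

lemma Per.comp {a b : ℝ} {α β : Type} {f : R2 → α} (hf : Per a b f) (φ : α → β) :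
    Per a b (fun r => φ (f r)) := by
  intro x y
  simp only [(hf x y).1, (hf x y).2, and_self]

variable {a b : ℝ} (M : TorusMetric a b)

lemma det_pos (p : R2) : 0 < M.g 0 0 p * M.g 1 1 p - M.g 0 1 p * M.g 1 0 p := by
  have h00 : 0 < M.g 0 0 p := by
    have := M.pos p ![1, 0] (by intro h; simpa using congrFun h 0)
    simpa [Fin.sum_univ_two] using this
  have h := M.pos p ![-M.g 0 1 p, M.g 0 0 p] (by
    intro h
    have h1 := congrFun h 1
    simp at h1
    exact h00.ne' h1)
  simp only [Fin.sum_univ_two, Matrix.cons_val_zero, Matrix.cons_val_one] at h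
  have h2 : M.g 1 0 p = M.g 0 1 p := M.symm 1 0 p
  rw [h2] at h ⊢
  have h3 : 0 < M.g 0 0 p * (M.g 0 0 p * M.g 1 1 p - M.g 0 1 p * M.g 0 1 p) := by
    nlinarith [h]
  rcases (mul_pos_iff.mp h3) with h4 | h4
  · exact h4.2
  · exact absurd h4.1 (not_lt.mpr h00.le)

lemma density_pos (p : R2) : 0 < density M p := Real.sqrt_pos.mpr (det_pos M p)

lemma density_smooth : ContDiff ℝ ∞ (density M) := by
  unfold density
  apply ContDiff.sqrt
  · exact ((M.smooth 0 0).mul (M.smooth 1 1)).sub ((M.smooth 0 1).mul (M.smooth 1 0))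
  · intro p
    exact (det_pos M p).ne'

lemma density_differentiable : Differentiable ℝ (density M) :=
  (density_smooth M).differentiable (by simp)

variable {M}

lemma DivFree.smul {X : R2 → R2} (hX : DivFree M X) (c : ℝ) (dX : Differentiable ℝ X) :
    DivFree M (fun r => c • X r) := by
  intro p
  have e : ∀ i, pd i (fun r => density M r * (c • X r) i) p
      = c * pd i (fun r => density M r * X r i) p := by
    intro i
    have : (fun r => density M r * (c • X r) i)
        = fun r => c * (density M r * X r i) := by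
      funext r; simp; ring
    rw [this]
    apply pd_const_mul
    exact (density_differentiable M p).mul ((differentiable_pi.mp dX i) p)
  simp only [e, ← Finset.mul_sum, hX p, mul_zero]

variable (M)

lemma cov_smul_left (c : ℝ) (X Y : R2 → R2) (k : Fin 2) (p : R2) :
    cov M (fun r => c • X r) Y k p = c * cov M X Y k p := by
  simp only [cov, Fin.sum_univ_two, Pi.smul_apply, smul_eq_mul]
  ring

lemma cov_smul_right (c : ℝ) (X Y : R2 → R2) (k : Fin 2) (p : R2) (dY : Differentiable ℝ Y) :
    cov M X (fun r => c • Y r) k p = c * cov M X Y k p := by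
  have e : ∀ i l, pd i (fun r => (c • Y r) l) p
      = c * pd i (fun r => Y r l) p := fun i l => by
    have := pd_const_mul (i := i) (p := p) c ((differentiable_pi.mp dY l) p)
    simpa using this
  simp only [cov, Fin.sum_univ_two, e]
  simp only [Pi.smul_apply, smul_eq_mul]
  ring

variable {M}

lemma fourierCoef_const_mul (c : ℝ) (f : R2 → ℝ) (n : ℤ × ℤ) :
    fourierCoef a b (fun r => c * f r) n = c * fourierCoef a b f n := by
  unfold fourierCoef
  rw [mul_left_comm]
  congr 1
  rw [← intervalIntegral.integral_const_mul]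
  apply intervalIntegral.integral_congr
  intro x _
  simp only
  rw [← intervalIntegral.integral_const_mul]
  apply intervalIntegral.integral_congr
  intro y _
  simp only
  push_cast
  ring

lemma MemSobolev.const_mul {s : ℝ} {f : R2 → ℝ} (hf : MemSobolev a b s f) (c : ℝ) :
    MemSobolev a b s (fun r => c * f r) := by
  unfold MemSobolev at *
  have h := hf.mul_left (‖(c : ℂ)‖ ^ 2)
  refine h.congr (fun n => ?_)
  rw [fourierCoef_const_mul, norm_mul]
  ring

lemma tangentSpace_smul {s : ℝ} {w : R2 → R2} (hw : w ∈ tangentSpace M s) (c : ℝ) :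
    c • w ∈ tangentSpace M s := by
  obtain ⟨w1, w2, w3, w4⟩ := hw
  refine ⟨contDiff_const.smul w1, w2.comp (fun v => c • v),
    w3.smul c (w1.differentiable (by simp)), fun i => ?_⟩
  exact (w4 i).const_mul c

lemma diff_time {z : ℝ → R2 → R2} (hz : ContDiff ℝ 1 (fun q : ℝ × R2 => z q.1 q.2)) (p : R2)
    (l : Fin 2) : Differentiable ℝ (fun s => z s p l) := by
  have h1 : Differentiable ℝ (fun q : ℝ × R2 => z q.1 q.2) := hz.differentiable (by simp)
  have h2 : Differentiable ℝ (fun q : ℝ × R2 => z q.1 q.2 l) := differentiable_pi.mp h1 l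
  exact h2.comp (differentiable_id.prodMk (differentiable_const p))

lemma diff_space {z : ℝ → R2 → R2} (hz : ContDiff ℝ 1 (fun q : ℝ × R2 => z q.1 q.2)) (t : ℝ) :
    Differentiable ℝ (z t) := by
  have h1 : Differentiable ℝ (fun q : ℝ × R2 => z q.1 q.2) := hz.differentiable (by simp)
  exact h1.comp ((differentiable_const t).prodMk differentiable_id)

lemma IsJacobi.smul {u η z ξ : ℝ → R2 → R2} (c : ℝ)
    (h : IsJacobi M u η z ξ) :
    IsJacobi M u η (fun t p => c • z t p) (fun t p => c • ξ t p) where
  smooth_z := h.smooth_z.const_smul c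
  smooth_ξ := h.smooth_ξ.const_smul c
  per_z := fun t => (h.per_z t).comp (fun v => c • v)
  per_ξ := fun t => (h.per_ξ t).comp (fun v => c • v)
  div_z := fun t => (h.div_z t).smul c (diff_space h.smooth_z t)
  div_ξ := fun t => (h.div_ξ t).smul c (diff_space h.smooth_ξ t)
  start := by intro p; simp [h.start p]
  lin_flow := by
    intro t p i
    have key : HasDerivAt (fun s => (c • ξ s (η s p)) i) _ t :=
      (h.lin_flow t p i).const_mul c
    refine key.congr_deriv ?_
    simp only [Fin.sum_univ_two, Pi.smul_apply, smul_eq_mul]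
    ring
  lin_euler := by
    obtain ⟨π, h1, h2, h3⟩ := h.lin_euler
    refine ⟨fun t p => c * π t p, fun t => contDiff_const.mul (h1 t),
      fun t => (h2 t).comp (fun v => c * v), fun t p k => ?_⟩
    have e1 : ∀ l, deriv (fun s => (c • z s p) l) t
        = c * deriv (fun s => z s p l) t := fun l => by
      exact deriv_const_mul c (diff_time h.smooth_z p l t)
    rw [cov_smul_right M _ _ _ _ _ (diff_space h.smooth_z t), cov_smul_left,
      pd_const_mul c ((h1 t).differentiable (by simp) p)]
    have := congrArg (fun v => c * v) (h3 t p k)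
    simp only [Fin.sum_univ_two] at this ⊢
    rw [e1 0, e1 1]
    linarith

lemma dexpKer_smul {u η : ℝ → R2 → R2} {s T : ℝ} {w : R2 → R2} (hw : w ∈ dexpKer M u η s T)
    (c : ℝ) : c • w ∈ dexpKer M u η s T := by
  obtain ⟨w1, z, ξ, w2, w3, w4⟩ := hw
  refine ⟨tangentSpace_smul w1 c, _, _, w2.smul c, ?_, ?_⟩
  · rw [← w3]; rfl
  · intro p; simp [w4]

end Pool.Agent.H.MP_2725b4_gt
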