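import Pool.Agent.H.MP_2725b4_gt.Geodesic

set_option autoImplicit false
set_option linter.unusedSimpArgs false

open scoped ContDiff

namespace Pool.Agent.H.MP_2725b4_gt

/-- Eulerian part of the explicit Jacobi field. -/
noncomputable def zE : ℝ → R2 → R2 := fun t p =>
  ![-(qf (p 1) * Real.sin (p 1) * Real.sin (t / 4)), Real.cos (t / 4)]

/-- The explicit Jacobi field, in Eulerian coordinates. -/
noncomputable def ξE : ℝ → R2 → R2 := fun t p =>
  ![-(16 * (Real.sin (p 1) * mf (p 1)) * (1 - Real.cos (t / 4))), 4 * Real.sin (t / 4)]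

lemma zE_0 (t : ℝ) (p : R2) : zE t p 0 = -(qf (p 1) * Real.sin (p 1) * Real.sin (t / 4)) := rfl
lemma zE_1 (t : ℝ) (p : R2) : zE t p 1 = Real.cos (t / 4) := rfl
lemma ξE_0 (t : ℝ) (p : R2) :
    ξE t p 0 = -(16 * (Real.sin (p 1) * mf (p 1)) * (1 - Real.cos (t / 4))) := rfl
lemma ξE_1 (t : ℝ) (p : R2) : ξE t p 1 = 4 * Real.sin (t / 4) := rfl

lemma sin_per (y : ℝ) : Real.sin (y + 2 * Real.pi) = Real.sin y := by simp

lemma hasDerivAt_zE0 (t y : ℝ) :
    HasDerivAt (fun y => -(qf y * Real.sin y * Real.sin (t / 4)))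
      (-((-Real.sin y * Real.sin y + qf y * Real.cos y) * Real.sin (t / 4))) y :=
  (((hasDerivAt_qf y).mul (Real.hasDerivAt_sin y)).mul_const (Real.sin (t / 4))).neg

lemma hasDerivAt_ξE0 (t y : ℝ) :
    HasDerivAt (fun y => -(16 * (Real.sin y * mf y) * (1 - Real.cos (t / 4))))
      (-(16 * (Real.cos y * mf y + Real.sin y * (Real.sin y / 4)) * (1 - Real.cos (t / 4)))) y :=
  ((((Real.hasDerivAt_sin y).mul (hasDerivAt_mf y)).const_mul 16).mul_const _).neg

lemma hasDerivAt_sin4 (t : ℝ) : HasDerivAt (fun t => Real.sin (t / 4)) (Real.cos (t / 4) / 4) t := by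
  have h : HasDerivAt (fun t : ℝ => t / 4) (1 / 4) t := (hasDerivAt_id t).div_const 4
  exact (h.sin).congr_deriv (by ring)

lemma hasDerivAt_cos4 (t : ℝ) :
    HasDerivAt (fun t => Real.cos (t / 4)) (-Real.sin (t / 4) / 4) t := by
  have h : HasDerivAt (fun t : ℝ => t / 4) (1 / 4) t := (hasDerivAt_id t).div_const 4
  exact (h.cos).congr_deriv (by ring)

lemma hasDerivAt_pressure2 (c y : ℝ) :
    HasDerivAt (fun y => c * (Real.sin y / 4 + Real.sin y * Real.cos y / 2 + Real.sin y ^ 3 / 12))
      (c * (qf y / 4 - Real.sin y ^ 2 * mf y)) y := by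
  have h1 := (Real.hasDerivAt_sin y).div_const 4
  have h2 := ((Real.hasDerivAt_sin y).mul (Real.hasDerivAt_cos y)).div_const 2
  have h3 := ((Real.hasDerivAt_sin y).pow 3).div_const 12
  have h := ((h1.add h2).add h3).const_mul c
  refine HasDerivAt.congr_deriv h ?_
  have hs : Real.cos y ^ 2 = 1 - Real.sin y ^ 2 := by
    have := Real.sin_sq_add_cos_sq y
    linarith
  unfold qf mf
  push_cast
  linear_combination (c / 2) * hs

theorem isJacobi_E : IsJacobi ME uE ηE zE ξE where
  smooth_z := by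
    rw [contDiff_pi]
    intro i
    fin_cases i
    · show ContDiff ℝ 1 (fun q : ℝ × R2 =>
        -(qf (q.2 1) * Real.sin (q.2 1) * Real.sin (q.1 / 4)))
      have := contDiff_qf.of_le (m := 1) (by simp)
      have h2 : ContDiff ℝ 1 (fun q : ℝ × R2 => qf (q.2 1)) := this.comp (by fun_prop)
      fun_prop
    · show ContDiff ℝ 1 (fun q : ℝ × R2 => Real.cos (q.1 / 4))
      fun_prop
  smooth_ξ := by
    rw [contDiff_pi]
    intro i
    fin_cases i
    · show ContDiff ℝ 1 (fun q : ℝ × R2 =>
        -(16 * (Real.sin (q.2 1) * mf (q.2 1)) * (1 - Real.cos (q.1 / 4))))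
      have := contDiff_mf.of_le (m := 1) (by simp)
      have h2 : ContDiff ℝ 1 (fun q : ℝ × R2 => mf (q.2 1)) := this.comp (by fun_prop)
      fun_prop
    · show ContDiff ℝ 1 (fun q : ℝ × R2 => 4 * Real.sin (q.1 / 4))
      fun_prop
  per_z := by
    intro t x y
    constructor
    · rfl
    · unfold zE
      simp [qf_per]
  per_ξ := by
    intro t x y
    constructor
    · rfl
    · unfold ξE
      simp [mf_per]
  div_z := by
    intro t p
    have e : ∀ i, (fun r => density ME r * zE t r i) = fun r => zE t r i := by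
      intro i
      funext r
      rw [ME_density, one_mul]
    simp only [Fin.sum_univ_two, e]
    have h1 : pd 0 (fun r => zE t r 0) p = 0 := pd_comp_snd_zero (hasDerivAt_zE0 t (p 1))
    have h2 : pd 1 (fun r => zE t r 1) p = 0 := pd_const
    rw [h1, h2, add_zero]
  div_ξ := by
    intro t p
    have e : ∀ i, (fun r => density ME r * ξE t r i) = fun r => ξE t r i := by
      intro i
      funext r
      rw [ME_density, one_mul]
    simp only [Fin.sum_univ_two, e]
    have h1 : pd 0 (fun r => ξE t r 0) p = 0 := pd_comp_snd_zero (hasDerivAt_ξE0 t (p 1))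
    have h2 : pd 1 (fun r => ξE t r 1) p = 0 := pd_const
    rw [h1, h2, add_zero]
  start := by
    intro p
    funext i
    fin_cases i
    · simp [ξE]
    · simp [ξE]
  lin_flow := by
    intro t p i
    fin_cases i
    · show HasDerivAt (fun s => ξE s (ηE s p) 0) (zE t (ηE t p) 0 +
        ∑ j, pd j (fun r => uE t r 0) (ηE t p) * ξE t (ηE t p) j) t
      simp only [Fin.sum_univ_two, pd_uE_00, pd_uE_10, ξE_0, ξE_1, zE_0, ηE_1]
      have h := (((hasDerivAt_cos4 t).const_sub 1).const_mul
        (16 * (Real.sin (p 1) * mf (p 1)))).neg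
      refine HasDerivAt.congr_deriv h ?_
      unfold dUf
      ring
    · show HasDerivAt (fun s => ξE s (ηE s p) 1) (zE t (ηE t p) 1 +
        ∑ j, pd j (fun r => uE t r 1) (ηE t p) * ξE t (ηE t p) j) t
      simp only [Fin.sum_univ_two, pd_uE_1, ξE_0, ξE_1, zE_1]
      have h := (hasDerivAt_sin4 t).const_mul 4
      refine HasDerivAt.congr_deriv h ?_
      ring
  lin_euler := by
    refine ⟨fun t p => Real.sin (t / 4) * (Real.sin (p 1) / 4 +
      Real.sin (p 1) * Real.cos (p 1) / 2 + Real.sin (p 1) ^ 3 / 12), fun t => ?_,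
      fun t x y => ?_, fun t p k => ?_⟩
    · fun_prop
    · constructor
      · rfl
      · simp
    · have hd0 : deriv (fun s => zE s p 0) t
          = -(qf (p 1) * Real.sin (p 1) * (Real.cos (t / 4) / 4)) := by
        have h := ((hasDerivAt_sin4 t).const_mul (qf (p 1) * Real.sin (p 1))).neg
        exact h.deriv
      have hd1 : deriv (fun s => zE s p 1) t = -Real.sin (t / 4) / 4 := (hasDerivAt_cos4 t).deriv
      have h1 : pd 0 (fun r => zE t r 0) p = 0 := pd_comp_snd_zero (hasDerivAt_zE0 t (p 1))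
      have h2 : pd 0 (fun r => zE t r 1) p = 0 := pd_const
      have hq := qf_ne (p 1)
      fin_cases k
      · show ∑ l, ME.g 0 l p * deriv (fun s => zE s p l) t + cov ME (uE t) (zE t) 0 p
          + cov ME (zE t) (uE t) 0 p = - pd 0 (fun r : R2 => Real.sin (t / 4) *
          (Real.sin (r 1) / 4 + Real.sin (r 1) * Real.cos (r 1) / 2 + Real.sin (r 1) ^ 3 / 12)) p
        rw [pd_comp_snd_zero (hasDerivAt_pressure2 (Real.sin (t / 4)) (p 1)), cov_u_0, cov_z_0,
          Fin.sum_univ_two, hd0, hd1, h1, ME_00, ME_01, zE_1]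
        unfold dUf Uf
        field_simp
        ring
      · show ∑ l, ME.g 1 l p * deriv (fun s => zE s p l) t + cov ME (uE t) (zE t) 1 p
          + cov ME (zE t) (uE t) 1 p = - pd 1 (fun r : R2 => Real.sin (t / 4) *
          (Real.sin (r 1) / 4 + Real.sin (r 1) * Real.cos (r 1) / 2 + Real.sin (r 1) ^ 3 / 12)) p
        rw [pd_comp_snd_one (hasDerivAt_pressure2 (Real.sin (t / 4)) (p 1)), cov_u_1, cov_z_1,
          Fin.sum_univ_two, hd0, hd1, h2, ME_10, ME_11, zE_0]
        unfold Uf
        field_simp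
        ring

lemma ξE_end (p : R2) : ξE (8 * Real.pi) p = 0 := by
  have e : 8 * Real.pi / 4 = 2 * Real.pi := by ring
  funext i
  fin_cases i
  · show ξE (8 * Real.pi) p 0 = 0
    rw [ξE_0, e, Real.cos_two_pi]; ring
  · show ξE (8 * Real.pi) p 1 = 0
    rw [ξE_1, e, Real.sin_two_pi]; ring

lemma zE_start : zE 0 = fun _ => ![0, 1] := by
  funext p i
  fin_cases i
  · show zE 0 p 0 = 0
    rw [zE_0]; simp
  · show zE 0 p 1 = 1
    rw [zE_1]; simp

lemma exp_integral_zero {b : ℝ} (hb : b ≠ 0) {n : ℤ} (hn : n ≠ 0) (w : ℂ) :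
    ∫ y in (0 : ℝ)..b, Complex.exp (-(2 * Real.pi * Complex.I * (w + n * y / b))) = 0 := by
  have hc : (-(2 * Real.pi * Complex.I * n / b) : ℂ) ≠ 0 := by
    have h1 : (Real.pi : ℂ) ≠ 0 := by exact_mod_cast Real.pi_ne_zero
    have h2 : (n : ℂ) ≠ 0 := by exact_mod_cast hn
    have h3 : (b : ℂ) ≠ 0 := by exact_mod_cast hb
    have h4 := Complex.I_ne_zero
    refine neg_ne_zero.mpr (div_ne_zero ?_ h3)
    exact mul_ne_zero (mul_ne_zero (mul_ne_zero two_ne_zero h1) h4) h2
  have e : ∀ y : ℝ, Complex.exp (-(2 * Real.pi * Complex.I * (w + n * y / b)))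
      = Complex.exp (-(2 * Real.pi * Complex.I * w)) *
        Complex.exp ((-(2 * Real.pi * Complex.I * n / b) : ℂ) * y) := by
    intro y
    rw [← Complex.exp_add]
    congr 1
    ring
  simp only [e]
  rw [intervalIntegral.integral_const_mul, integral_exp_mul_complex hc]
  have h3 : (b : ℂ) ≠ 0 := by exact_mod_cast hb
  have e1 : (-(2 * Real.pi * Complex.I * n / b) : ℂ) * b = ((-n : ℤ) : ℂ) * (2 * Real.pi * Complex.I) := by
    push_cast
    field_simp
  rw [e1, Complex.exp_int_mul_two_pi_mul_I]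
  simp

lemma fourierCoef_const {a b : ℝ} (ha : a ≠ 0) (hb : b ≠ 0) (c : ℝ) {n : ℤ × ℤ}
    (hn : n ≠ (0, 0)) : fourierCoef a b (fun _ => c) n = 0 := by
  unfold fourierCoef
  by_cases h2 : n.2 = 0
  · have h1 : n.1 ≠ 0 := by
      intro h1
      exact hn (Prod.ext h1 h2)
    have e : ∀ x y : ℝ, ((c : ℝ) : ℂ) *
        Complex.exp (-(2 * Real.pi * Complex.I * (n.1 * x / a + n.2 * y / b)))
        = (c : ℂ) * Complex.exp (-(2 * Real.pi * Complex.I * (0 + n.1 * x / a))) := by
      intro x y
      rw [h2]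
      congr 2
      push_cast
      ring
    simp only [e, intervalIntegral.integral_const]
    rw [intervalIntegral.integral_smul, intervalIntegral.integral_const_mul,
      exp_integral_zero ha h1]
    simp
  · have e : ∀ x : ℝ, ∫ y in (0 : ℝ)..b, ((c : ℝ) : ℂ) *
        Complex.exp (-(2 * Real.pi * Complex.I * (n.1 * x / a + n.2 * y / b))) = 0 := by
      intro x
      rw [intervalIntegral.integral_const_mul, exp_integral_zero hb h2]
      simp
    simp only [e]
    simp

lemma memSobolev_const {a b : ℝ} (ha : a ≠ 0) (hb : b ≠ 0) (s c : ℝ) :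
    MemSobolev a b s (fun _ => c) := by
  unfold MemSobolev
  apply summable_of_ne_finset_zero (s := {(0, 0)})
  intro n hn
  rw [fourierCoef_const ha hb c (by simpa using hn)]
  simp

/-- The initial velocity `∂_y` of the explicit Jacobi field. -/
noncomputable def wE : R2 → R2 := fun _ => ![0, 1]

lemma wE_mem_tangent (s : ℝ) : wE ∈ tangentSpace ME s := by
  refine ⟨contDiff_const, fun x y => ⟨rfl, rfl⟩, ?_, ?_⟩
  · intro p
    have e : ∀ i, (fun r => density ME r * wE r i) = fun _ => wE 0 i := by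
      intro i
      funext r
      rw [ME_density, one_mul]
      rfl
    simp only [Fin.sum_univ_two, e]
    rw [pd_const, pd_const, add_zero]
  · intro i
    exact memSobolev_const (by norm_num) (by positivity) s (wE 0 i)

lemma wE_mem_ker (s : ℝ) : wE ∈ dexpKer ME uE ηE s (8 * Real.pi) :=
  ⟨wE_mem_tangent s, zE, ξE, isJacobi_E, zE_start, ξE_end⟩

lemma wE_ne_zero : wE ≠ 0 := by
  intro h
  have := congrFun (congrFun h 0) 1
  simp [wE] at this

end Pool.Agent.H.MP_2725b4_gt
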