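import Pool.Agent.H.MP_2725b4_gt.Diff

set_option autoImplicit false

open MeasureTheory Set

namespace Pool.Agent.H.MP_2725b4_gt

lemma const_of_sh_zero {F : ℝ × ℝ × ℝ → ℝ} {t : ℝ} (h : ∀ d x y, sh d F (t, x, y) = 0)
    (x x' y : ℝ) : F (t, x, y) = F (t, x', y) := by
  have := h (x - x') x' y
  simp only [sh] at this
  have e : x' + (x - x') = x := by ring
  rw [e] at this
  linarith

lemma eqOn_of_deriv_zero {f : ℝ → ℝ} {T : ℝ} (_hT : 0 ≤ T) (hc : ContinuousOn f (Icc 0 T))
    (hd : ∀ t ∈ Ioo 0 T, HasDerivAt f 0 t) : ∀ t ∈ Icc 0 T, f t = f 0 := by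
  intro t ht
  rcases ht.1.eq_or_lt with h0 | hpos
  · rw [← h0]
  · have hc' : ContinuousOn f (Icc 0 t) := hc.mono (Icc_subset_Icc_right ht.2)
    obtain ⟨c, hc1, hc2⟩ := exists_hasDerivAt_eq_slope f (fun _ => (0 : ℝ)) hpos hc'
      (fun s hs => hd s ⟨hs.1, lt_of_lt_of_le hs.2 ht.2⟩)
    have h3 : f t - f 0 = 0 := by
      have := hc2.symm
      rw [div_eq_zero_iff] at this
      rcases this with h | h
      · exact h
      · linarith
    linarith

lemma integral_sin_sq_mul_mf :
    ∫ y in (0 : ℝ)..(2 * Real.pi), Real.sin y ^ 2 * mf y = Real.pi := by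
  have h : ∀ y, HasDerivAt (fun y => y / 2 - Real.sin y * Real.cos y / 2 - Real.sin y ^ 3 / 12)
      (Real.sin y ^ 2 * mf y) y := by
    intro y
    have h1 := ((hasDerivAt_id y).div_const 2).sub
      (((Real.hasDerivAt_sin y).mul (Real.hasDerivAt_cos y)).div_const 2)
    have h2 := h1.sub (((Real.hasDerivAt_sin y).pow 3).div_const 12)
    refine HasDerivAt.congr_deriv h2 ?_
    have hs := Real.sin_sq_add_cos_sq y
    unfold mf
    push_cast
    linear_combination (-1 / 2) * hs
  have hc : Continuous fun y => Real.sin y ^ 2 * mf y := by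
    have := continuous_mf
    fun_prop
  rw [intervalIntegral.integral_eq_sub_of_hasDerivAt (fun y _ => h y)
    (hc.intervalIntegrable _ _)]
  simp

lemma integral_sin_sq_mul' :
    ∫ y in (0 : ℝ)..(2 * Real.pi), Real.sin y ^ 2 * (1 - Real.cos y / 2) = Real.pi := by
  have h : ∀ y, HasDerivAt (fun y => y / 2 - Real.sin y * Real.cos y / 2 - Real.sin y ^ 3 / 6)
      (Real.sin y ^ 2 * (1 - Real.cos y / 2)) y := by
    intro y
    have h1 := ((hasDerivAt_id y).div_const 2).sub
      (((Real.hasDerivAt_sin y).mul (Real.hasDerivAt_cos y)).div_const 2)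
    have h2 := h1.sub (((Real.hasDerivAt_sin y).pow 3).div_const 6)
    refine HasDerivAt.congr_deriv h2 ?_
    have hs := Real.sin_sq_add_cos_sq y
    push_cast
    linear_combination (-1 / 2) * hs
  have hc : Continuous fun y : ℝ => Real.sin y ^ 2 * (1 - Real.cos y / 2) := by
    fun_prop
  rw [intervalIntegral.integral_eq_sub_of_hasDerivAt (fun y _ => h y)
    (hc.intervalIntegrable _ _)]
  simp

lemma integral_qf : ∫ y in (0 : ℝ)..(2 * Real.pi), qf y = 4 * Real.pi := by
  have h : ∀ y, HasDerivAt (fun y => 2 * y + Real.sin y) (qf y) y := by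
    intro y
    have h1 := ((hasDerivAt_id y).const_mul 2).add (Real.hasDerivAt_sin y)
    refine HasDerivAt.congr_deriv h1 ?_
    unfold qf
    ring
  rw [intervalIntegral.integral_eq_sub_of_hasDerivAt (fun y _ => h y)
    (continuous_qf.intervalIntegrable _ _)]
  simp
  ring

/-- The constant `D = ∫ sin² m² / q`. -/
noncomputable def Dc : ℝ := ∫ y in (0 : ℝ)..(2 * Real.pi), Real.sin y ^ 2 * mf y ^ 2 * Ef y

lemma Dc_ge : Real.pi / 3 ≤ Dc := by
  have h1 : ∫ y in (0 : ℝ)..(2 * Real.pi), 1 / 3 * (Real.sin y ^ 2 * (1 - Real.cos y / 2))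
      ≤ Dc := by
    unfold Dc
    have c1 := continuous_mf
    have c2 := continuous_Ef
    apply intervalIntegral.integral_mono_on two_pi_nonneg
    · apply Continuous.intervalIntegrable; fun_prop
    · apply Continuous.intervalIntegrable; fun_prop
    · intro y _
      have hq : qf y ≤ 3 := by unfold qf; linarith [Real.cos_le_one y]
      have hE : 1 / 3 ≤ Ef y := by
        unfold Ef
        rw [one_div]
        exact inv_anti₀ (qf_pos y) hq
      have hm : 1 - Real.cos y / 2 ≤ mf y ^ 2 := by
        unfold mf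
        nlinarith [sq_nonneg (Real.cos y)]
      have h3 : 0 ≤ Real.sin y ^ 2 * mf y ^ 2 := by positivity
      calc 1 / 3 * (Real.sin y ^ 2 * (1 - Real.cos y / 2))
          ≤ 1 / 3 * (Real.sin y ^ 2 * mf y ^ 2) := by gcongr
        _ ≤ Ef y * (Real.sin y ^ 2 * mf y ^ 2) := by gcongr
        _ = Real.sin y ^ 2 * mf y ^ 2 * Ef y := by ring
  rw [intervalIntegral.integral_const_mul, integral_sin_sq_mul'] at h1
  linarith

/-- Explicit solution of `b'' = -b/16 + K`, `b 0 = 0` on `[0, T]`. -/
lemma ode_solution {b B B' : ℝ → ℝ} {T K : ℝ} (hT : 0 ≤ T)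
    (hb : ∀ t ∈ Icc 0 T, HasDerivAt b (B t) t) (cB : Continuous B)
    (hB : ∀ t ∈ Ioo 0 T, HasDerivAt B (B' t) t) (hB' : ∀ t ∈ Ioo 0 T, B' t = -(1 / 16) * b t + K)
    (hb0 : b 0 = 0) : ∀ t ∈ Icc 0 T,
      b t = 16 * K * (1 - Real.cos (t / 4)) + 4 * B 0 * Real.sin (t / 4) := by
  have s4 : ∀ t, HasDerivAt (fun t => Real.sin (t / 4)) (Real.cos (t / 4) / 4) t := by
    intro t
    have h : HasDerivAt (fun t : ℝ => t / 4) (1 / 4) t := (hasDerivAt_id t).div_const 4
    exact (h.sin).congr_deriv (by ring)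
  have c4 : ∀ t, HasDerivAt (fun t => Real.cos (t / 4)) (-Real.sin (t / 4) / 4) t := by
    intro t
    have h : HasDerivAt (fun t : ℝ => t / 4) (1 / 4) t := (hasDerivAt_id t).div_const 4
    exact (h.cos).congr_deriv (by ring)
  set e : ℝ → ℝ := fun t =>
    b t - (16 * K * (1 - Real.cos (t / 4)) + 4 * B 0 * Real.sin (t / 4)) with he
  set e' : ℝ → ℝ := fun t =>
    B t - (4 * K * Real.sin (t / 4) + B 0 * Real.cos (t / 4)) with he'
  have hde : ∀ t ∈ Icc 0 T, HasDerivAt e (e' t) t := by
    intro t ht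
    have h1 := (((c4 t).const_sub 1).const_mul (16 * K)).add ((s4 t).const_mul (4 * B 0))
    refine ((hb t ht).sub h1).congr_deriv ?_
    simp only [he']
    ring
  have hde' : ∀ t ∈ Ioo 0 T, HasDerivAt e' (-(1 / 16) * e t) t := by
    intro t ht
    have h1 := ((s4 t).const_mul (4 * K)).add ((c4 t).const_mul (B 0))
    refine ((hB t ht).sub h1).congr_deriv ?_
    rw [hB' t ht]
    simp only [he]
    ring
  have ce' : Continuous e' := by
    simp only [he']
    fun_prop
  set N : ℝ → ℝ := fun t => e' t ^ 2 + 1 / 16 * e t ^ 2 with hN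
  have ce : ContinuousOn e (Icc 0 T) := fun t ht => (hde t ht).continuousAt.continuousWithinAt
  have hNc : ContinuousOn N (Icc 0 T) :=
    (ce'.continuousOn.pow 2).add (continuousOn_const.mul (ce.pow 2))
  have hNd : ∀ t ∈ Ioo 0 T, HasDerivAt N 0 t := by
    intro t ht
    have h1 := ((hde' t ht).pow 2).add (((hde t (Ioo_subset_Icc_self ht)).pow 2).const_mul (1 / 16))
    refine HasDerivAt.congr_deriv h1 ?_
    push_cast
    ring
  have hN0 := eqOn_of_deriv_zero hT hNc hNd
  intro t ht
  have h2 := hN0 t ht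
  have e0 : e 0 = 0 := by simp [he, hb0]
  have e'0 : e' 0 = 0 := by simp [he']
  simp only [hN, e0, e'0] at h2
  have h3 : e t ^ 2 = 0 := by nlinarith [sq_nonneg (e' t), sq_nonneg (e t)]
  have h4 : e t = 0 := pow_eq_zero_iff (two_ne_zero) |>.mp h3
  simp only [he] at h4
  linarith

/-- The two-by-two linear system. -/
lemma final_algebra {c A θ r : ℝ} (hθ0 : 0 < θ) (hθ : θ ≤ 2 * Real.pi) (hr : r < 1) (hr0 : 0 ≤ r)
    (e1 : c * (1 - Real.cos θ) + A * Real.sin θ = 0)
    (e2 : c * (θ - Real.sin θ) + A * (1 - Real.cos θ) = θ * c * r) :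
    c = 0 ∧ (θ < 2 * Real.pi → A = 0) := by
  rcases hθ.eq_or_lt with h | h
  · subst h
    simp only [Real.cos_two_pi, Real.sin_two_pi] at e1 e2
    have h1 : c * (2 * Real.pi * (1 - r)) = 0 := by linarith
    have h2 : 2 * Real.pi * (1 - r) ≠ 0 := by
      have := Real.pi_pos
      have : 0 < 1 - r := by linarith
      positivity
    refine ⟨(mul_eq_zero.mp h1).resolve_right h2, fun h => absurd h (lt_irrefl _)⟩
  · have hcos : Real.cos θ < 1 := by
      refine lt_of_le_of_ne (Real.cos_le_one θ) (fun hc => ?_)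
      rw [Real.cos_eq_one_iff] at hc
      obtain ⟨n, hn⟩ := hc
      have hpi := Real.pi_pos
      have h1 : (0 : ℝ) < n := by
        by_contra hneg
        push Not at hneg
        have : (n : ℝ) * (2 * Real.pi) ≤ 0 := mul_nonpos_of_nonpos_of_nonneg hneg (by positivity)
        linarith
      have h2 : (n : ℝ) < 1 := by
        by_contra hneg
        push Not at hneg
        have : 1 * (2 * Real.pi) ≤ (n : ℝ) * (2 * Real.pi) := by gcongr
        linarith
      have h3 : (0 : ℤ) < n := by exact_mod_cast h1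
      have h4 : n < (1 : ℤ) := by exact_mod_cast h2
      omega
    -- the determinant
    have hdet : c * ((1 - r) * (θ * Real.sin θ) - 2 * (1 - Real.cos θ)) = 0 := by
      have hs := Real.sin_sq_add_cos_sq θ
      linear_combination Real.sin θ * e2 - (1 - Real.cos θ) * e1 + c * hs
    have hneg : (1 - r) * (θ * Real.sin θ) - 2 * (1 - Real.cos θ) < 0 := by
      by_cases hs : Real.sin θ ≤ 0
      · have h1 : (1 - r) * (θ * Real.sin θ) ≤ 0 :=
          mul_nonpos_of_nonneg_of_nonpos (by linarith)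
            (mul_nonpos_of_nonneg_of_nonpos hθ0.le hs)
        linarith
      · push Not at hs
        have hθpi : θ < Real.pi := by
          by_contra hc
          push Not at hc
          have h1 : 0 ≤ θ - Real.pi := by linarith
          have h2 : θ - Real.pi ≤ Real.pi := by linarith
          have h3 := Real.sin_nonneg_of_nonneg_of_le_pi h1 h2
          rw [Real.sin_sub_pi] at h3
          linarith
        have h2 : θ / 2 < Real.tan (θ / 2) := Real.lt_tan (by linarith) (by linarith)
        have hc2 : 0 < Real.cos (θ / 2) :=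
          Real.cos_pos_of_mem_Ioo ⟨by linarith [Real.pi_pos], by linarith⟩
        have h3 : θ / 2 * Real.cos (θ / 2) < Real.sin (θ / 2) := by
          rw [Real.tan_eq_sin_div_cos] at h2
          rwa [lt_div_iff₀ hc2] at h2
        have hs2 : 0 < Real.sin (θ / 2) :=
          Real.sin_pos_of_pos_of_lt_pi (by linarith) (by linarith)
        have e3 : Real.sin θ = 2 * Real.sin (θ / 2) * Real.cos (θ / 2) := by
          have := Real.sin_two_mul (θ / 2)
          rw [show 2 * (θ / 2) = θ by ring] at this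
          exact this
        have e4 : 1 - Real.cos θ = 2 * Real.sin (θ / 2) ^ 2 := by
          have := Real.cos_two_mul (θ / 2)
          rw [show 2 * (θ / 2) = θ by ring] at this
          have hs := Real.sin_sq_add_cos_sq (θ / 2)
          linarith
        have h4 : θ * Real.sin θ < 2 * (1 - Real.cos θ) := by
          rw [e3, e4]
          nlinarith
        have h5 : (1 - r) * (θ * Real.sin θ) ≤ θ * Real.sin θ := by
          have : 0 ≤ θ * Real.sin θ := (mul_pos hθ0 hs).le
          nlinarith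
        linarith
    have hc : c = 0 := (mul_eq_zero.mp hdet).resolve_right hneg.ne
    refine ⟨hc, fun _ => ?_⟩
    rw [hc] at e2
    have h1 : A * (1 - Real.cos θ) = 0 := by linarith
    exact (mul_eq_zero.mp h1).resolve_right (by linarith)

end Pool.Agent.H.MP_2725b4_gt
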